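import Pool.Agent.TH322.SQ.Dens
import Pool.Agent.W945.Sos.Basic

/-!
# Sign changes of `P - t² N` along a finite sequence, on average over `t`
-/

set_option autoImplicit false

open MeasureTheory ProbabilityTheory Polynomial
open scoped ENNReal NNReal RealInnerProductSpace

namespace Pool.Agent.TH322.SQ
open Pool.Agent.W945.Sos

section
variable {ι κ : Type} [Fintype ι] [Fintype κ]

/-- the vector of the values -/
noncomputable def vec (f : ι → ℝ[X]) (x : ℝ) : EuclideanSpace ℝ ι :=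
  WithLp.toLp 2 fun i => (f i).eval x

/-- the sum of the squares -/
noncomputable def sq (f : ι → ℝ[X]) : ℝ[X] := ∑ i, f i ^ 2

theorem norm_vec (f : ι → ℝ[X]) (x : ℝ) : ‖vec f x‖ ^ 2 = (sq f).eval x := by
  rw [EuclideanSpace.real_norm_sq_eq, sq, eval_finsetSum]
  refine Finset.sum_congr rfl fun i _ => ?_
  rw [eval_pow]
  rfl

theorem sq_nonneg' (f : ι → ℝ[X]) (x : ℝ) : 0 ≤ (sq f).eval x := by
  rw [← norm_vec]
  positivity

/-- linear combinations -/
noncomputable def lin (f : ι → ℝ[X]) (a : EuclideanSpace ℝ ι) : ℝ[X] := ∑ i, C (a i) * f i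

theorem eval_lin (f : ι → ℝ[X]) (a : EuclideanSpace ℝ ι) (x : ℝ) :
    (lin f a).eval x = inner ℝ (vec f x) a := by
  rw [lin, eval_finsetSum, PiLp.inner_apply]
  refine Finset.sum_congr rfl fun i _ => ?_
  rw [eval_mul, eval_C]
  simp [vec]

theorem supp_lin (f : ι → ℝ[X]) (M : Finset ℕ) (hf : ∀ i, (f i).support ⊆ M)
    (a : EuclideanSpace ℝ ι) : (lin f a).support ⊆ M := by
  intro m hm
  by_contra hc
  rw [mem_support_iff] at hm
  apply hm
  rw [lin, finsetSum_coeff]
  refine Finset.sum_eq_zero fun i _ => ?_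
  rw [coeff_C_mul]
  have : (f i).coeff m = 0 := by
    by_contra h
    exact hc (hf i (mem_support_iff.2 h))
  rw [this, mul_zero]

theorem nr_le (p : ℝ[X]) (M : Finset ℕ) (hp : p.support ⊆ M) : nr p ≤ 2 * M.card := by
  by_cases h : p = 0
  · subst h
    simp [nr]
  · have h1 := desc p h
    have h2 := Finset.card_le_card hp
    omega

theorem nr_diff (f : ι → ℝ[X]) (g : κ → ℝ[X]) (M : Finset ℕ) (hf : ∀ i, (f i).support ⊆ M)
    (hg : ∀ j, (g j).support ⊆ M) (a : EuclideanSpace ℝ ι) (b : EuclideanSpace ℝ κ)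
    (h : lin f a ^ 2 - lin g b ^ 2 ≠ 0) : nr (lin f a ^ 2 - lin g b ^ 2) ≤ 4 * M.card := by
  have e : lin f a ^ 2 - lin g b ^ 2 = (lin f a - lin g b) * (lin f a + lin g b) := by ring
  rw [e] at h ⊢
  have h1 := nr_mul _ _ h
  have s1 : (lin f a - lin g b).support ⊆ M := by
    intro m hm
    by_contra hc
    rw [mem_support_iff, coeff_sub] at hm
    have e1 : (lin f a).coeff m = 0 := by
      by_contra h
      exact hc (supp_lin f M hf a (mem_support_iff.2 h))
    have e2 : (lin g b).coeff m = 0 := by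
      by_contra h
      exact hc (supp_lin g M hg b (mem_support_iff.2 h))
    rw [e1, e2, sub_zero] at hm
    exact hm rfl
  have s2 : (lin f a + lin g b).support ⊆ M := by
    intro m hm
    by_contra hc
    rw [mem_support_iff, coeff_add] at hm
    have e1 : (lin f a).coeff m = 0 := by
      by_contra h
      exact hc (supp_lin f M hf a (mem_support_iff.2 h))
    have e2 : (lin g b).coeff m = 0 := by
      by_contra h
      exact hc (supp_lin g M hg b (mem_support_iff.2 h))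
    rw [e1, e2, add_zero] at hm
    exact hm rfl
  have h2 := nr_le _ M s1
  have h3 := nr_le _ M s2
  omega

/-- counting -/
theorem card_cells (D : ℝ[X]) (hD : D ≠ 0) (x : ℕ → ℝ) (hx : StrictMono x) (J : Finset ℕ)
    (hJ : ∀ j ∈ J, ∃ y, x j ≤ y ∧ y ≤ x (j + 1) ∧ D.eval y = 0) : J.card ≤ 2 * nr D := by
  classical
  choose! ρ h1 h2 h3 using hJ
  have h4 : J.card ≤ 2 * (J.image ρ).card := by
    refine Finset.card_le_mul_card_image J 2 fun r _ => ?_
    rcases (J.filter fun j => ρ j = r).eq_empty_or_nonempty with h | h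
    · rw [h]
      simp
    · set m := (J.filter fun j => ρ j = r).min' h with hm
      have hm1 := Finset.min'_mem _ h
      rw [← hm, Finset.mem_filter] at hm1
      have h5 : (J.filter fun j => ρ j = r) ⊆ {m, m + 1} := by
        intro j hj
        have h6 : m ≤ j := Finset.min'_le _ _ hj
        rw [Finset.mem_filter] at hj
        rw [Finset.mem_insert, Finset.mem_singleton]
        by_contra hc
        have h7 : m + 1 < j := by omega
        have h8 := hx h7
        have h9 := h1 j hj.1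
        have h10 := h2 m hm1.1
        rw [hj.2] at h9
        rw [hm1.2] at h10
        linarith
      refine (Finset.card_le_card h5).trans ?_
      exact Finset.card_le_two
  have h5 : (J.image ρ).card ≤ nr D := by
    refine Finset.card_le_card fun r hr => ?_
    obtain ⟨j, hj, rfl⟩ := Finset.mem_image.1 hr
    rw [Multiset.mem_toFinset, mem_roots hD]
    exact h3 j hj
  omega

/-- the member `P - t² N` at `x` -/
noncomputable def mem (f : ι → ℝ[X]) (g : κ → ℝ[X]) (t : ℝ) : ℝ[X] := sq f - C (t ^ 2) * sq g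

theorem eval_mem (f : ι → ℝ[X]) (g : κ → ℝ[X]) (t x : ℝ) :
    (mem f g t).eval x = (sq f).eval x - t ^ 2 * (sq g).eval x := by
  rw [mem, eval_sub, eval_mul, eval_C]

/-- the comparison of two points -/
theorem pair_le (f : ι → ℝ[X]) (g : κ → ℝ[X]) (x y : ℝ) :
    nu {t | (mem f g t).eval x * (mem f g t).eval y < 0}
      ≤ ((stdGaussian (EuclideanSpace ℝ ι)).prod (stdGaussian (EuclideanSpace ℝ κ)))
        {z | ¬ ((inner ℝ (vec g x) z.2) ^ 2 < (inner ℝ (vec f x) z.1) ^ 2 ↔
          (inner ℝ (vec g y) z.2) ^ 2 < (inner ℝ (vec f y) z.1) ^ 2)} := by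
  have key : ∀ x y : ℝ, {t : ℝ | t ^ 2 * ‖vec g x‖ ^ 2 < ‖vec f x‖ ^ 2}
      ⊆ {t : ℝ | t ^ 2 * ‖vec g y‖ ^ 2 < ‖vec f y‖ ^ 2} →
      nu {t | (mem f g t).eval x * (mem f g t).eval y < 0}
      ≤ ((stdGaussian (EuclideanSpace ℝ ι)).prod (stdGaussian (EuclideanSpace ℝ κ)))
        {z | ¬ ((inner ℝ (vec g x) z.2) ^ 2 < (inner ℝ (vec f x) z.1) ^ 2 ↔
          (inner ℝ (vec g y) z.2) ^ 2 < (inner ℝ (vec f y) z.1) ^ 2)} := by
    intro x y hsub
    have hmx : MeasurableSet {t : ℝ | t ^ 2 * ‖vec g x‖ ^ 2 < ‖vec f x‖ ^ 2} :=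
      measurableSet_lt (by fun_prop) (by fun_prop)
    have h1 : {t | (mem f g t).eval x * (mem f g t).eval y < 0}
        ⊆ {t : ℝ | t ^ 2 * ‖vec g y‖ ^ 2 < ‖vec f y‖ ^ 2}
          \ {t : ℝ | t ^ 2 * ‖vec g x‖ ^ 2 < ‖vec f x‖ ^ 2} := by
      intro t ht
      have ht' : (mem f g t).eval x * (mem f g t).eval y < 0 := ht
      rw [eval_mem, eval_mem, ← norm_vec, ← norm_vec, ← norm_vec, ← norm_vec] at ht'
      have hn : ¬ t ^ 2 * ‖vec g x‖ ^ 2 < ‖vec f x‖ ^ 2 := by
        intro h2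
        have h3 : t ^ 2 * ‖vec g y‖ ^ 2 < ‖vec f y‖ ^ 2 := hsub h2
        have h4 := mul_pos (sub_pos.2 h2) (sub_pos.2 h3)
        linarith
      refine ⟨?_, hn⟩
      show t ^ 2 * ‖vec g y‖ ^ 2 < ‖vec f y‖ ^ 2
      by_contra h3
      have h4 := mul_nonneg_of_nonpos_of_nonpos (sub_nonpos.2 (not_lt.1 hn))
        (sub_nonpos.2 (not_lt.1 h3))
      linarith
    calc nu {t | (mem f g t).eval x * (mem f g t).eval y < 0}
        ≤ nu ({t : ℝ | t ^ 2 * ‖vec g y‖ ^ 2 < ‖vec f y‖ ^ 2}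
          \ {t : ℝ | t ^ 2 * ‖vec g x‖ ^ 2 < ‖vec f x‖ ^ 2}) := measure_mono h1
      _ = nu {t : ℝ | t ^ 2 * ‖vec g y‖ ^ 2 < ‖vec f y‖ ^ 2}
          - nu {t : ℝ | t ^ 2 * ‖vec g x‖ ^ 2 < ‖vec f x‖ ^ 2} :=
        measure_sdiff hsub hmx.nullMeasurableSet (measure_ne_top _ _)
      _ = ((stdGaussian (EuclideanSpace ℝ ι)).prod (stdGaussian (EuclideanSpace ℝ κ)))
            {z | (inner ℝ (vec g y) z.2) ^ 2 < (inner ℝ (vec f y) z.1) ^ 2}
          - ((stdGaussian (EuclideanSpace ℝ ι)).prod (stdGaussian (EuclideanSpace ℝ κ)))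
            {z | (inner ℝ (vec g x) z.2) ^ 2 < (inner ℝ (vec f x) z.1) ^ 2} := by
        rw [prob_lt, prob_lt]
      _ ≤ ((stdGaussian (EuclideanSpace ℝ ι)).prod (stdGaussian (EuclideanSpace ℝ κ)))
            ({z | (inner ℝ (vec g y) z.2) ^ 2 < (inner ℝ (vec f y) z.1) ^ 2} \
            {z | (inner ℝ (vec g x) z.2) ^ 2 < (inner ℝ (vec f x) z.1) ^ 2}) := le_measure_sdiff
      _ ≤ _ := by
        refine measure_mono fun z hz => ?_
        show ¬ (_ ↔ _)
        intro h
        exact hz.2 (h.2 hz.1)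
  by_cases h : {t : ℝ | t ^ 2 * ‖vec g x‖ ^ 2 < ‖vec f x‖ ^ 2}
      ⊆ {t : ℝ | t ^ 2 * ‖vec g y‖ ^ 2 < ‖vec f y‖ ^ 2}
  · exact key x y h
  · have h' : {t : ℝ | t ^ 2 * ‖vec g y‖ ^ 2 < ‖vec f y‖ ^ 2}
      ⊆ {t : ℝ | t ^ 2 * ‖vec g x‖ ^ 2 < ‖vec f x‖ ^ 2} := by
      obtain ⟨t₁, h1, h2⟩ := Set.not_subset.1 h
      intro t₂ h3
      by_contra h4
      have h1' : t₁ ^ 2 * ‖vec g x‖ ^ 2 < ‖vec f x‖ ^ 2 := h1
      have h2' : ‖vec f y‖ ^ 2 ≤ t₁ ^ 2 * ‖vec g y‖ ^ 2 := not_lt.1 h2
      have h3' : t₂ ^ 2 * ‖vec g y‖ ^ 2 < ‖vec f y‖ ^ 2 := h3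
      have h4' : ‖vec f x‖ ^ 2 ≤ t₂ ^ 2 * ‖vec g x‖ ^ 2 := not_lt.1 h4
      have h5 : t₁ ^ 2 < t₂ ^ 2 := lt_of_mul_lt_mul_right (h1'.trans_le h4') (by positivity)
      have h6 : t₂ ^ 2 < t₁ ^ 2 := lt_of_mul_lt_mul_right (h3'.trans_le h2') (by positivity)
      exact absurd h5 h6.not_gt
    have h5 := key y x h'
    have e1 : {t | (mem f g t).eval x * (mem f g t).eval y < 0}
        = {t | (mem f g t).eval y * (mem f g t).eval x < 0} := by
      ext t
      change (mem f g t).eval x * (mem f g t).eval y < 0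
        ↔ (mem f g t).eval y * (mem f g t).eval x < 0
      rw [mul_comm]
    rw [e1]
    refine h5.trans (measure_mono fun z hz => ?_)
    intro hc
    exact hz hc.symm

/-- the average number of sign changes along a sequence -/
theorem sum_le (f : ι → ℝ[X]) (g : κ → ℝ[X]) (M : Finset ℕ) (hf : ∀ i, (f i).support ⊆ M)
    (hg : ∀ j, (g j).support ⊆ M) (x : ℕ → ℝ) (hx : StrictMono x) (n : ℕ) :
    ∑ j ∈ Finset.range n, nu {t | (mem f g t).eval (x j) * (mem f g t).eval (x (j + 1)) < 0}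
      ≤ 8 * (M.card : ℝ≥0∞) := by
  classical
  by_cases h0 : ∃ x0, vec f x0 ≠ 0 ∨ vec g x0 ≠ 0
  swap
  · have h1 : ∀ y t, (mem f g t).eval y = 0 := by
      intro y t
      have h2 : vec f y = 0 ∧ vec g y = 0 := by
        by_contra hc
        apply h0
        refine ⟨y, ?_⟩
        by_contra h3
        rw [not_or, not_not, not_not] at h3
        exact hc h3
      rw [eval_mem, ← norm_vec, ← norm_vec, h2.1, h2.2]
      simp
    have h3 : ∑ j ∈ Finset.range n,
        nu {t | (mem f g t).eval (x j) * (mem f g t).eval (x (j + 1)) < 0} = 0 := by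
      refine Finset.sum_eq_zero fun j _ => ?_
      have : {t | (mem f g t).eval (x j) * (mem f g t).eval (x (j + 1)) < 0} = ∅ := by
        ext t
        simp [h1]
      rw [this, measure_empty]
    rw [h3]
    exact zero_le
  · obtain ⟨x0, hx0⟩ := h0
    set W := (stdGaussian (EuclideanSpace ℝ ι)).prod (stdGaussian (EuclideanSpace ℝ κ)) with hW
    let E : ℝ → Set (EuclideanSpace ℝ ι × EuclideanSpace ℝ κ) := fun y =>
      {z | (inner ℝ (vec g y) z.2) ^ 2 < (inner ℝ (vec f y) z.1) ^ 2}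
    have hE : ∀ y, MeasurableSet (E y) := by
      intro y
      refine measurableSet_lt ?_ ?_
      · have : Measurable fun a : EuclideanSpace ℝ κ => inner ℝ (vec g y) a := by fun_prop
        exact (this.comp measurable_snd).pow_const 2
      · have : Measurable fun a : EuclideanSpace ℝ ι => inner ℝ (vec f y) a := by fun_prop
        exact (this.comp measurable_fst).pow_const 2
    let S : ℕ → Set (EuclideanSpace ℝ ι × EuclideanSpace ℝ κ) := fun j =>
      {z | ¬ (z ∈ E (x j) ↔ z ∈ E (x (j + 1)))}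
    have hS : ∀ j, MeasurableSet (S j) := by
      intro j
      have h1 : S j = (E (x j) \ E (x (j + 1))) ∪ (E (x (j + 1)) \ E (x j)) := by
        ext z
        show ¬ (z ∈ E (x j) ↔ z ∈ E (x (j + 1))) ↔
          (z ∈ E (x j) ∧ z ∉ E (x (j + 1))) ∨ (z ∈ E (x (j + 1)) ∧ z ∉ E (x j))
        tauto
      rw [h1]
      exact ((hE _).diff (hE _)).union ((hE _).diff (hE _))
    have h1 : ∑ j ∈ Finset.range n,
        nu {t | (mem f g t).eval (x j) * (mem f g t).eval (x (j + 1)) < 0}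
        ≤ ∑ j ∈ Finset.range n, W (S j) :=
      Finset.sum_le_sum fun j _ => pair_le f g (x j) (x (j + 1))
    have h2 : ∑ j ∈ Finset.range n, W (S j)
        = ∫⁻ z, ∑ j ∈ Finset.range n, (S j).indicator (fun _ => (1 : ℝ≥0∞)) z ∂W := by
      rw [lintegral_finsetSum _ fun j _ => measurable_const.indicator (hS j)]
      refine Finset.sum_congr rfl fun j _ => ?_
      rw [lintegral_indicator (hS j), setLIntegral_const, one_mul]
    have h3 : ∀ᵐ z ∂W, ∑ j ∈ Finset.range n, (S j).indicator (fun _ => (1 : ℝ≥0∞)) z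
        ≤ 8 * (M.card : ℝ≥0∞) := by
      filter_upwards [null_eq (vec f x0) (vec g x0) hx0] with z hz
      set D : ℝ[X] := lin f z.1 ^ 2 - lin g z.2 ^ 2 with hD
      have hDe : ∀ y, D.eval y = (inner ℝ (vec f y) z.1) ^ 2 - (inner ℝ (vec g y) z.2) ^ 2 := by
        intro y
        rw [hD, eval_sub, eval_pow, eval_pow, eval_lin, eval_lin]
      have hD0 : D ≠ 0 := by
        intro h
        have h4 := hDe x0
        rw [h, eval_zero] at h4
        exact hz (by linarith)
      have h5 : ∑ j ∈ Finset.range n, (S j).indicator (fun _ => (1 : ℝ≥0∞)) z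
          = (((Finset.range n).filter fun j => z ∈ S j).card : ℝ≥0∞) := by
        simp only [Set.indicator_apply]
        rw [Finset.sum_boole]
      rw [h5]
      have h6 : ((Finset.range n).filter fun j => z ∈ S j).card ≤ 2 * nr D := by
        refine card_cells D hD0 x hx _ fun j hj => ?_
        have hj2 : ¬ (z ∈ E (x j) ↔ z ∈ E (x (j + 1))) := (Finset.mem_filter.1 hj).2
        have hlt : x j ≤ x (j + 1) := (hx (Nat.lt_succ_self j)).le
        have hmem : ∀ y, z ∈ E y ↔ 0 < D.eval y := by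
          intro y
          rw [hDe, sub_pos]
          rfl
        rw [hmem, hmem] at hj2
        have hcont : ContinuousOn (fun y => D.eval y) (Set.Icc (x j) (x (j + 1))) :=
          D.continuous.continuousOn
        by_cases h7 : 0 < D.eval (x j)
        · have h8 : D.eval (x (j + 1)) ≤ 0 := by
            by_contra hc
            exact hj2 ⟨fun _ => not_le.1 hc, fun _ => h7⟩
          obtain ⟨y, hy, hy0⟩ := intermediate_value_Icc' hlt hcont ⟨h8, h7.le⟩
          exact ⟨y, hy.1, hy.2, hy0⟩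
        · have h8 : 0 ≤ D.eval (x (j + 1)) := by
            by_contra hc
            exact hj2 ⟨fun h => absurd h h7, fun h => absurd h (not_lt.2 (not_le.1 hc).le)⟩
          obtain ⟨y, hy, hy0⟩ := intermediate_value_Icc hlt hcont ⟨not_lt.1 h7, h8⟩
          exact ⟨y, hy.1, hy.2, hy0⟩
      have h9 := nr_diff f g M hf hg z.1 z.2 hD0
      have h10 : ((Finset.range n).filter fun j => z ∈ S j).card ≤ 8 * M.card := by
        rw [← hD] at h9
        omega
      calc (((Finset.range n).filter fun j => z ∈ S j).card : ℝ≥0∞)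
          ≤ ((8 * M.card : ℕ) : ℝ≥0∞) := by exact_mod_cast h10
        _ = 8 * (M.card : ℝ≥0∞) := by push_cast; rfl
    calc _ ≤ ∑ j ∈ Finset.range n, W (S j) := h1
      _ = _ := h2
      _ ≤ ∫⁻ _z, 8 * (M.card : ℝ≥0∞) ∂W := lintegral_mono_ae h3
      _ = _ := by
        rw [lintegral_const, measure_univ, mul_one]

end

end Pool.Agent.TH322.SQ
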