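import Pool.Agent.TH322.SQ.TV

/-!
# The probability that two linear functionals have different signs
-/

set_option autoImplicit false

open MeasureTheory ProbabilityTheory Polynomial Filter
open scoped ENNReal NNReal RealInnerProductSpace Topology

namespace Pool.Agent.TH322.SQ

section
variable {E : Type} [NormedAddCommGroup E] [InnerProductSpace ℝ E] [FiniteDimensional ℝ E]
  [MeasurableSpace E] [BorelSpace E]

theorem joint (u e : E) (hu : ‖u‖ = 1) (he : ‖e‖ = 1) (hue : inner ℝ u e = 0) :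
    (stdGaussian E).map (fun a => (inner ℝ u a, inner ℝ e a))
      = (gaussianReal 0 1).prod (gaussianReal 0 1) := by
  have hG : HasGaussianLaw (fun a : E => ((inner ℝ u a : ℝ), (inner ℝ e a : ℝ))) (stdGaussian E) := by
    refine ⟨?_⟩
    have := isGaussian_map (μ := stdGaussian E) ((innerSL ℝ u).prod (innerSL ℝ e))
    exact this
  have hind : IndepFun (fun a : E => (inner ℝ u a : ℝ)) (fun a : E => (inner ℝ e a : ℝ))
      (stdGaussian E) := by
    refine hG.indepFun_of_covariance_eq_zero ?_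
    have h1 := covarianceBilin_apply_eq_cov (μ := stdGaussian E) IsGaussian.memLp_two_id u e
    rw [covarianceBilin_stdGaussian] at h1
    rw [← h1]
    exact hue
  have h2 := (indepFun_iff_map_prod_eq_prod_map_map (by fun_prop) (by fun_prop)).1 hind
  rw [h2, map_inner, map_inner, hu, he]
  simp

theorem nu_Iio (b : ℝ) : nu (Set.Iio b) = ENNReal.ofReal ((Real.arctan b + Real.pi / 2) / Real.pi) := by
  have hm : MeasurableSet (Set.Iio b) := measurableSet_Iio
  have h1 : nu (Set.Iio b) = ∫⁻ t, (Set.Iio b).indicator (fun _ => (1 : ℝ≥0∞)) t ∂nu := by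
    rw [lintegral_indicator hm, setLIntegral_const, one_mul]
  have hint : Integrable (fun t : ℝ => (Real.pi * (1 + t ^ 2))⁻¹) := by
    have h := integrable_inv_one_add_sq.const_mul Real.pi⁻¹
    refine h.congr (Eventually.of_forall fun t => ?_)
    simp only [mul_inv]
  have h2 : ∫⁻ t : ℝ, (Set.Iio b).indicator (fun _ => (1 : ℝ≥0∞)) t
      * ENNReal.ofReal ((Real.pi * (1 + t ^ 2))⁻¹)
      = ∫⁻ t in Set.Iio b, ENNReal.ofReal ((Real.pi * (1 + t ^ 2))⁻¹) := by
    rw [← lintegral_indicator hm]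
    refine lintegral_congr fun t => ?_
    by_cases ht : t ∈ Set.Iio b
    · rw [Set.indicator_of_mem ht, Set.indicator_of_mem ht, one_mul]
    · rw [Set.indicator_of_notMem ht, Set.indicator_of_notMem ht, zero_mul]
  rw [h1, nu_lint _ (measurable_const.indicator hm), h2, ← ofReal_integral_eq_lintegral_ofReal]
  · congr 1
    rw [← integral_Iic_eq_integral_Iio]
    have h3 : (fun t : ℝ => (Real.pi * (1 + t ^ 2))⁻¹) = fun t : ℝ => Real.pi⁻¹ * (1 + t ^ 2)⁻¹ := by
      funext t
      rw [mul_inv]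
    rw [h3, integral_const_mul, integral_Iic_inv_one_add_sq]
    field_simp
  · exact hint.integrableOn
  · exact Eventually.of_forall fun t => by positivity

/-- the exact formula -/
theorem prob_sign (u v : E) (hu : ‖u‖ = 1) (hv : ‖v‖ = 1) (h1 : v ≠ u) (h2 : v ≠ -u) :
    (stdGaussian E) {a | inner ℝ u a * inner ℝ v a < 0}
      = ENNReal.ofReal (Real.arccos (inner ℝ u v) / Real.pi) := by
  set κ : ℝ := inner ℝ u v with hκ
  have hκ1 : κ < 1 := by
    have h3 := real_inner_le_norm u v
    rw [hu, hv, one_mul] at h3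
    refine lt_of_le_of_ne h3 fun h4 => ?_
    have h5 := norm_sub_sq_real u v
    rw [hu, hv, ← hκ, h4] at h5
    have h6 : ‖u - v‖ = 0 := by
      have : ‖u - v‖ ^ 2 = 0 := by linarith
      exact pow_eq_zero_iff two_ne_zero |>.1 this
    exact h1 (sub_eq_zero.1 (norm_eq_zero.1 h6)).symm
  have hκ2 : -1 < κ := by
    have h3 := real_inner_le_norm u (-v)
    rw [norm_neg, inner_neg_right, hu, hv, one_mul, ← hκ] at h3
    refine lt_of_le_of_ne (by linarith) fun h4 => ?_
    have h5 := norm_add_sq_real u v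
    rw [hu, hv, ← hκ, ← h4] at h5
    have h6 : ‖u + v‖ = 0 := by
      have : ‖u + v‖ ^ 2 = 0 := by linarith
      exact pow_eq_zero_iff two_ne_zero |>.1 this
    exact h2 (eq_neg_of_add_eq_zero_right (norm_eq_zero.1 h6))
  set s : ℝ := √(1 - κ ^ 2) with hs
  have hs2 : 0 < 1 - κ ^ 2 := by nlinarith
  have hs0 : 0 < s := Real.sqrt_pos.2 hs2
  have hss : s ^ 2 = 1 - κ ^ 2 := Real.sq_sqrt hs2.le
  set e : E := s⁻¹ • (v - κ • u) with he
  have huu : inner ℝ u u = (1 : ℝ) := by rw [real_inner_self_eq_norm_sq, hu, one_pow]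
  have hvv : inner ℝ v v = (1 : ℝ) := by rw [real_inner_self_eq_norm_sq, hv, one_pow]
  have hue : inner ℝ u e = 0 := by
    rw [he, inner_smul_right, inner_sub_right, inner_smul_right, huu, ← hκ]
    ring
  have hen : ‖e‖ = 1 := by
    have h3 : inner ℝ e e = (1 : ℝ) := by
      rw [he, inner_smul_left, inner_smul_right, inner_sub_left, inner_sub_right, inner_sub_right,
        inner_smul_left, inner_smul_left, inner_smul_right, inner_smul_right, huu, hvv,
        real_inner_comm u v, ← hκ]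
      simp only [conj_trivial]
      field_simp
      nlinarith
    rw [real_inner_self_eq_norm_sq] at h3
    have h4 : 0 ≤ ‖e‖ := norm_nonneg _
    nlinarith
  have hve : v = κ • u + s • e := by
    rw [he, smul_smul, mul_inv_cancel₀ hs0.ne', one_smul]
    abel
  have hj := joint u e hu hen hue
  have hS : MeasurableSet {z : ℝ × ℝ | z.1 * (κ * z.1 + s * z.2) < 0} :=
    measurableSet_lt (by fun_prop) measurable_const
  have hm : Measurable (fun a : E => ((inner ℝ u a : ℝ), (inner ℝ e a : ℝ))) := by fun_prop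
  have e1 : (stdGaussian E) {a | inner ℝ u a * inner ℝ v a < 0}
      = ((gaussianReal 0 1).prod (gaussianReal 0 1)) {z : ℝ × ℝ | z.1 * (κ * z.1 + s * z.2) < 0} := by
    rw [← hj, Measure.map_apply hm hS]
    congr 1
    ext a
    change inner ℝ u a * inner ℝ v a < 0 ↔ inner ℝ u a * (κ * inner ℝ u a + s * inner ℝ e a) < 0
    have : (inner ℝ v a : ℝ) = κ * inner ℝ u a + s * inner ℝ e a := by
      conv_lhs => rw [hve]
      rw [inner_add_left, inner_smul_left, inner_smul_left]
      simp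
    rw [this]
  have hmd : Measurable (fun z : ℝ × ℝ => z.2 / z.1) := measurable_snd.div measurable_fst
  have e2 : ((gaussianReal 0 1).prod (gaussianReal 0 1)) {z : ℝ × ℝ | z.1 * (κ * z.1 + s * z.2) < 0}
      = nu (Set.Iio (-κ / s)) := by
    unfold nu
    rw [Measure.map_apply hmd measurableSet_Iio]
    have h3 : ∀ᵐ z : ℝ × ℝ ∂((gaussianReal 0 1).prod (gaussianReal 0 1)), z.1 ≠ 0 := by
      have := gauss_noatoms
      have h4 : ∀ᵐ x : ℝ ∂(gaussianReal 0 1), x ≠ 0 := by
        rw [ae_iff]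
        simp
      exact (Measure.quasiMeasurePreserving_fst (μ := gaussianReal 0 1) (ν := gaussianReal 0 1)).ae h4
    refine measure_congr ?_
    filter_upwards [h3] with z hz
    apply propext
    show z.1 * (κ * z.1 + s * z.2) < 0 ↔ z.2 / z.1 < -κ / s
    have hz2 : 0 < z.1 ^ 2 := by positivity
    have h5 : z.1 * (κ * z.1 + s * z.2) = z.1 ^ 2 * s * (z.2 / z.1 - -κ / s) := by
      field_simp
      ring
    rw [h5, mul_neg_iff]
    constructor
    · rintro (⟨_, h⟩ | ⟨h, _⟩)
      · linarith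
      · nlinarith [mul_pos hz2 hs0]
    · intro h
      exact Or.inl ⟨mul_pos hz2 hs0, by linarith⟩
  rw [e1, e2, nu_Iio]
  congr 2
  rw [neg_div, Real.arctan_neg, Real.arccos_eq_pi_div_two_sub_arcsin,
    Real.arcsin_eq_arctan ⟨hκ2, hκ1⟩]
  ring

theorem arccos_ge (r : ℝ) (h1 : -1 ≤ r) (h2 : r ≤ 1) : √(2 - 2 * r) ≤ Real.arccos r := by
  set θ := Real.arccos r with hθ
  have h3 : Real.cos θ = r := Real.cos_arccos h1 h2
  have h4 : 0 ≤ θ := Real.arccos_nonneg r
  have h5 : 2 - 2 * r = (2 * Real.sin (θ / 2)) ^ 2 := by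
    have := Real.cos_sq' (θ / 2)
    have h6 := Real.cos_two_mul (θ / 2)
    rw [mul_div_cancel₀ _ two_ne_zero, h3] at h6
    nlinarith
  rw [h5]
  have h6 : 0 ≤ Real.sin (θ / 2) := Real.sin_nonneg_of_nonneg_of_le_pi (by linarith)
    (by linarith [Real.arccos_le_pi r])
  rw [Real.sqrt_sq (by positivity)]
  have := Real.sin_le (show 0 ≤ θ / 2 by linarith)
  linarith

theorem arccos_le' (r : ℝ) (h1 : -1 ≤ r) (h2 : r ≤ 1) :
    Real.arccos r ≤ Real.pi / 2 * √(2 - 2 * r) := by
  set θ := Real.arccos r with hθ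
  have h3 : Real.cos θ = r := Real.cos_arccos h1 h2
  have h4 : 0 ≤ θ := Real.arccos_nonneg r
  have h4' : θ ≤ Real.pi := Real.arccos_le_pi r
  have h5 : 2 - 2 * r = (2 * Real.sin (θ / 2)) ^ 2 := by
    have := Real.cos_sq' (θ / 2)
    have h6 := Real.cos_two_mul (θ / 2)
    rw [mul_div_cancel₀ _ two_ne_zero, h3] at h6
    nlinarith
  rw [h5]
  have h6 : 0 ≤ Real.sin (θ / 2) := Real.sin_nonneg_of_nonneg_of_le_pi (by linarith)
    (by linarith)
  rw [Real.sqrt_sq (by positivity)]
  have h7 := Real.mul_le_sin (show 0 ≤ θ / 2 by linarith) (by linarith)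
  have h8 : θ = Real.pi / 2 * (2 * (2 / Real.pi * (θ / 2))) := by
    field_simp
  nlinarith [Real.pi_pos]

end

end Pool.Agent.TH322.SQ
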