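import Pool.Agent.TH322.SQ.Alt

/-!
# The average number of roots of `P - t² N`
-/

set_option autoImplicit false

open MeasureTheory ProbabilityTheory Polynomial Filter
open scoped ENNReal NNReal RealInnerProductSpace Topology

namespace Pool.Agent.TH322.SQ
open Pool.Agent.W945.Sos

/-- the grid -/
noncomputable def grid (n j : ℕ) : ℝ := (j : ℝ) / ((n : ℝ) + 1) - ((n : ℝ) + 1)

theorem grid_mono (n : ℕ) : StrictMono (grid n) := by
  intro i j hij
  have h1 : (i : ℝ) < j := by exact_mod_cast hij
  have h2 : (0 : ℝ) < (n : ℝ) + 1 := by positivity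
  unfold grid
  have := div_lt_div_of_pos_right h1 h2
  linarith

theorem grid_rat (n j : ℕ) : grid n j ∈ Set.range ((↑) : ℚ → ℝ) := by
  refine ⟨(j : ℚ) / ((n : ℚ) + 1) - ((n : ℚ) + 1), ?_⟩
  unfold grid
  push_cast
  rfl

theorem sign_near (q : ℝ[X]) (y : ℝ) (h0 : q.eval y = 0) (h1 : q.derivative.eval y ≠ 0) :
    ∃ δ > 0, ∀ z, z ≠ y → |z - y| < δ → 0 < q.eval z * q.derivative.eval y * (z - y) := by
  have h2 := hasDerivAt_iff_tendsto_slope.1 (q.hasDerivAt y)
  have h3 := h2.mul_const (q.derivative.eval y)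
  have h4 : (0 : ℝ) < q.derivative.eval y * q.derivative.eval y := by
    have := mul_self_pos.2 h1
    exact this
  have h5 := h3.eventually (lt_mem_nhds h4)
  obtain ⟨δ, hδ, h6⟩ := Metric.mem_nhdsWithin_iff.1 h5
  refine ⟨δ, hδ, fun z hz hzy => ?_⟩
  have h7 : 0 < slope (fun x => q.eval x) y z * q.derivative.eval y :=
    h6 ⟨by rwa [Metric.mem_ball, Real.dist_eq], hz⟩
  have hzy' : z - y ≠ 0 := sub_ne_zero.2 hz
  have h8 : q.eval z = slope (fun x => q.eval x) y z * (z - y) := by
    rw [slope_def_field, h0, sub_zero]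
    field_simp
  rw [h8]
  have h9 : 0 < (z - y) * (z - y) := mul_self_pos.2 hzy'
  nlinarith

theorem count_roots_le (q : ℝ[X]) (R : Finset ℝ) (hR : ∀ y ∈ R, q.eval y = 0 ∧
    q.derivative.eval y ≠ 0 ∧ y ∉ Set.range ((↑) : ℚ → ℝ)) :
    ∀ᶠ n : ℕ in atTop, R.card ≤ ((Finset.range (2 * (n + 1) ^ 2)).filter fun j =>
      q.eval (grid n j) * q.eval (grid n (j + 1)) < 0).card := by
  classical
  choose! δ hδ hs using fun y (hy : y ∈ R) => sign_near q y (hR y hy).1 (hR y hy).2.1
  have hev : ∀ᶠ n : ℕ in atTop, ∀ y ∈ R, 1 / ((n : ℝ) + 1) < δ y ∧ |y| < (n : ℝ) + 1 := by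
    rw [Finset.eventually_all]
    intro y hy
    refine (tendsto_one_div_add_atTop_nhds_zero_nat.eventually (gt_mem_nhds (hδ y hy))).and ?_
    have h1 : Tendsto (fun n : ℕ => (n : ℝ) + 1) atTop atTop :=
      tendsto_atTop_add_const_right _ _ tendsto_natCast_atTop_atTop
    exact h1.eventually_gt_atTop |y|
  filter_upwards [hev] with n hn
  set N : ℝ := (n : ℝ) + 1 with hN
  have hN0 : 0 < N := by positivity
  have cell : ∀ y ∈ R, grid n ⌊(y + N) * N⌋₊ < y ∧ y < grid n (⌊(y + N) * N⌋₊ + 1) ∧
      y - grid n ⌊(y + N) * N⌋₊ < 1 / N ∧ grid n (⌊(y + N) * N⌋₊ + 1) - y ≤ 1 / N ∧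
      ⌊(y + N) * N⌋₊ < 2 * (n + 1) ^ 2 := by
    intro y hy
    obtain ⟨h1, h2⟩ := hn y hy
    have h3 := abs_lt.1 h2
    have h4 : 0 ≤ (y + N) * N := mul_nonneg (by linarith) hN0.le
    have h5 := Nat.floor_le h4
    have h6 := Nat.lt_floor_add_one ((y + N) * N)
    set j := ⌊(y + N) * N⌋₊ with hj
    have e1 : grid n j ≤ y := by
      unfold grid
      rw [← hN, sub_le_iff_le_add, div_le_iff₀ hN0]
      exact h5
    have e2 : y < grid n (j + 1) := by
      unfold grid
      rw [← hN, lt_sub_iff_add_lt, lt_div_iff₀ hN0]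
      push_cast
      exact h6
    have e3 : grid n (j + 1) = grid n j + 1 / N := by
      unfold grid
      rw [← hN]
      push_cast
      ring
    refine ⟨lt_of_le_of_ne e1 fun h => (hR y hy).2.2 (h ▸ grid_rat n j), e2, by linarith,
      by linarith, ?_⟩
    have h7 : (j : ℝ) < 2 * N ^ 2 := by nlinarith
    have h8 : (j : ℝ) < ((2 * (n + 1) ^ 2 : ℕ) : ℝ) := by
      push_cast
      exact h7
    exact_mod_cast h8
  refine Finset.card_le_card_of_injOn (fun y => ⌊(y + N) * N⌋₊) ?_ ?_
  · intro y hy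
    have hy' : y ∈ R := hy
    obtain ⟨h1, h2, h3, h4, h5⟩ := cell y hy'
    simp only [Finset.coe_filter, Finset.mem_range, Set.mem_setOf_eq]
    refine ⟨h5, ?_⟩
    have hd := (hn y hy').1
    have s1 := hs y hy' (grid n ⌊(y + N) * N⌋₊) h1.ne (by
      rw [abs_sub_comm, abs_of_pos (by linarith)]
      linarith)
    have s2 := hs y hy' (grid n (⌊(y + N) * N⌋₊ + 1)) h2.ne' (by
      rw [abs_of_pos (by linarith)]
      linarith)
    have s1' : q.eval (grid n ⌊(y + N) * N⌋₊) * q.derivative.eval y < 0 := by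
      by_contra hc
      have := mul_nonpos_of_nonneg_of_nonpos (not_lt.1 hc) (sub_nonpos.2 h1.le)
      linarith
    have s2' : 0 < q.eval (grid n (⌊(y + N) * N⌋₊ + 1)) * q.derivative.eval y :=
      pos_of_mul_pos_left s2 (sub_nonneg.2 h2.le)
    have s3 := mul_neg_of_neg_of_pos s1' s2'
    have s4 : 0 < q.derivative.eval y * q.derivative.eval y := mul_self_pos.2 (hR y hy').2.1
    by_contra hc
    have := mul_nonneg (not_lt.1 hc) s4.le
    nlinarith
  · intro y hy y' hy' h
    by_contra hne
    obtain ⟨h1, h2, h3, h4, h5⟩ := cell y hy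
    obtain ⟨k1, k2, k3, k4, k5⟩ := cell y' hy'
    simp only at h
    rw [← h] at k1 k2 k3 k4
    have hd := (hn y hy).1
    have s1 := hs y hy y' (fun h => hne h.symm) (by
      rw [abs_lt]
      constructor <;> linarith)
    rw [(hR y' hy').1] at s1
    simp at s1

section
variable {ι κ : Type} [Fintype ι] [Fintype κ]

/-- the exceptional parameters -/
def Bad (f : ι → ℝ[X]) (g : κ → ℝ[X]) : Set ℝ :=
  {t | ∃ y, (sq g).eval y ≠ 0 ∧ (mem f g t).eval y = 0 ∧ (y ∈ Set.range ((↑) : ℚ → ℝ) ∨
    (derivative (sq f) * sq g - sq f * derivative (sq g) ≠ 0 ∧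
      (derivative (sq f) * sq g - sq f * derivative (sq g)).eval y = 0))}

theorem bad_countable (f : ι → ℝ[X]) (g : κ → ℝ[X]) : (Bad f g).Countable := by
  set W := derivative (sq f) * sq g - sq f * derivative (sq g) with hW
  have h1 : (Set.range ((↑) : ℚ → ℝ) ∪ (W.roots.toFinset : Set ℝ)).Countable :=
    (Set.countable_range _).union (Finset.countable_toSet _)
  have h2 : Bad f g ⊆ ⋃ y ∈ (Set.range ((↑) : ℚ → ℝ) ∪ (W.roots.toFinset : Set ℝ)),
      {t | (sq g).eval y ≠ 0 ∧ (mem f g t).eval y = 0} := by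
    rintro t ⟨y, hy1, hy2, hy3⟩
    rw [Set.mem_iUnion₂]
    refine ⟨y, ?_, hy1, hy2⟩
    rcases hy3 with h | ⟨h3, h4⟩
    · exact Or.inl h
    · right
      rw [Finset.mem_coe, Multiset.mem_toFinset, mem_roots h3]
      exact h4
  refine (Set.Countable.biUnion h1 fun y _ => ?_).mono h2
  refine Set.Finite.countable ?_
  refine Set.Finite.subset (s := {√((sq f).eval y / (sq g).eval y),
    -√((sq f).eval y / (sq g).eval y)}) (Set.toFinite _) ?_
  rintro t ⟨h3, h4⟩
  rw [eval_mem] at h4
  have h5 : t ^ 2 = (sq f).eval y / (sq g).eval y := by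
    field_simp
    linarith
  rw [← h5, Real.sqrt_sq_eq_abs]
  rcases abs_choice t with h | h
  · left
    exact h.symm
  · right
    rw [Set.mem_singleton_iff, h, neg_neg]

theorem simple (f : ι → ℝ[X]) (g : κ → ℝ[X]) (t : ℝ) (ht : t ∉ Bad f g) (y : ℝ)
    (h0 : mem f g t ≠ 0) (h1 : (sq g).eval y ≠ 0) (h2 : (mem f g t).eval y = 0) :
    (derivative (mem f g t)).eval y ≠ 0 := by
  intro h3
  set q := mem f g t with hq
  have hW : derivative q * sq g - q * derivative (sq g)
      = derivative (sq f) * sq g - sq f * derivative (sq g) := by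
    rw [hq, mem, derivative_sub, derivative_C_mul]
    ring
  by_cases hW0 : derivative (sq f) * sq g - sq f * derivative (sq g) = 0
  · rw [hW0, sub_eq_zero] at hW
    have hg0 : sq g ≠ 0 := by
      rintro h
      rw [h, eval_zero] at h1
      exact h1 rfl
    have hroot : q.IsRoot y := h2
    have hq' : derivative q ≠ 0 := by
      intro h
      have h4 := natDegree_eq_zero_of_derivative_eq_zero h
      obtain ⟨c, hc⟩ := natDegree_eq_zero.1 h4
      rw [← hc, eval_C] at h2
      rw [← hc, h2, C_0] at h0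
      exact h0 rfl
    have h5 : derivative q * sq g ≠ 0 := mul_ne_zero hq' hg0
    have h6 := rootMultiplicity_mul (x := y) h5
    have h7 : q * derivative (sq g) ≠ 0 := hW ▸ h5
    have h8 := rootMultiplicity_mul (x := y) h7
    have h9 := derivative_rootMultiplicity_of_root hroot
    have h10 : rootMultiplicity y (sq g) = 0 := rootMultiplicity_eq_zero h1
    have h11 : 0 < rootMultiplicity y q := (rootMultiplicity_pos h0).2 hroot
    rw [hW] at h6
    omega
  · apply ht
    refine ⟨y, h1, h2, Or.inr ⟨hW0, ?_⟩⟩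
    rw [← hW, eval_sub, eval_mul, eval_mul, h3, h2]
    ring

theorem nu_null (B : Set ℝ) (hB : B.Countable) : nu B = 0 := by
  have hm : MeasurableSet B := hB.measurableSet
  have h1 : nu B = ∫⁻ t, B.indicator (fun _ => (1 : ℝ≥0∞)) t ∂nu := by
    rw [lintegral_indicator hm, setLIntegral_const, one_mul]
  rw [h1, nu_lint _ (measurable_const.indicator hm)]
  have h2 : ∀ᵐ t : ℝ, t ∉ B := measure_eq_zero_iff_ae_notMem.1 (hB.measure_zero _)
  rw [lintegral_congr_ae (g := fun _ => (0 : ℝ≥0∞))]
  · simp
  · filter_upwards [h2] with t ht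
    rw [Set.indicator_of_notMem ht, zero_mul]

/-- the number of sign changes along the grid -/
noncomputable def cnt (f : ι → ℝ[X]) (g : κ → ℝ[X]) (n : ℕ) (t : ℝ) : ℝ≥0∞ :=
  ∑ j ∈ Finset.range (2 * (n + 1) ^ 2),
    {t | (mem f g t).eval (grid n j) * (mem f g t).eval (grid n (j + 1)) < 0}.indicator
      (fun _ => (1 : ℝ≥0∞)) t

theorem meas_pair (f : ι → ℝ[X]) (g : κ → ℝ[X]) (x y : ℝ) :
    MeasurableSet {t | (mem f g t).eval x * (mem f g t).eval y < 0} := by
  simp only [eval_mem]
  exact measurableSet_lt (by fun_prop) measurable_const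

theorem cnt_meas (f : ι → ℝ[X]) (g : κ → ℝ[X]) (n : ℕ) : Measurable (cnt f g n) := by
  unfold cnt
  exact Finset.measurable_sum _ fun j _ => measurable_const.indicator (meas_pair f g _ _)

theorem cnt_le (f : ι → ℝ[X]) (g : κ → ℝ[X]) (M : Finset ℕ) (hf : ∀ i, (f i).support ⊆ M)
    (hg : ∀ j, (g j).support ⊆ M) (n : ℕ) : ∫⁻ t, cnt f g n t ∂nu ≤ 8 * (M.card : ℝ≥0∞) := by
  unfold cnt
  rw [lintegral_finsetSum _ fun j _ => measurable_const.indicator (meas_pair f g _ _)]
  have h1 := sum_le f g M hf hg (grid n) (grid_mono n) (2 * (n + 1) ^ 2)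
  refine le_trans (le_of_eq ?_) h1
  refine Finset.sum_congr rfl fun j _ => ?_
  rw [lintegral_indicator (meas_pair f g _ _), setLIntegral_const, one_mul]

/-- a measurable upper bound for the number of roots, with small integral -/
theorem main_avg (f : ι → ℝ[X]) (g : κ → ℝ[X]) (M : Finset ℕ) (hf : ∀ i, (f i).support ⊆ M)
    (hg : ∀ j, (g j).support ⊆ M) : ∃ F : ℝ → ℝ≥0∞, Measurable F ∧
      (∀ t, (nr (mem f g t) : ℝ≥0∞) ≤ F t) ∧ ∫⁻ t, F t ∂nu ≤ 10 * (M.card : ℝ≥0∞) := by
  classical
  have hBm : MeasurableSet (Bad f g) := (bad_countable f g).measurableSet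
  have hL : Measurable fun t => liminf (fun n => cnt f g n t) atTop :=
    Measurable.liminf fun n => cnt_meas f g n
  refine ⟨fun t => (2 * (M.card : ℝ≥0∞) + liminf (fun n => cnt f g n t) atTop)
    + (Bad f g).indicator (fun _ => ∞) t, (measurable_const.add hL).add
      (measurable_const.indicator hBm), fun t => ?_, ?_⟩
  · show (nr (mem f g t) : ℝ≥0∞) ≤ (2 * (M.card : ℝ≥0∞) + liminf (fun n => cnt f g n t) atTop)
      + (Bad f g).indicator (fun _ => ∞) t
    by_cases ht : t ∈ Bad f g
    · rw [Set.indicator_of_mem ht]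
      simp
    rw [Set.indicator_of_notMem ht, add_zero]
    by_cases h0 : mem f g t = 0
    · rw [h0]
      simp [nr]
    set q := mem f g t with hq
    set R : Finset ℝ := q.roots.toFinset.filter fun y => (sq g).eval y ≠ 0 with hR
    set Z : Finset ℝ := q.roots.toFinset.filter fun y => ¬ (sq g).eval y ≠ 0 with hZ
    have hsum : nr q = R.card + Z.card := by
      rw [nr, hR, hZ, Finset.card_filter_add_card_filter_not]
    have hZc : Z.card ≤ 2 * M.card := by
      have hZ' : ∀ y ∈ Z, vec f y = 0 ∧ vec g y = 0 := by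
        intro y hy
        rw [hZ, Finset.mem_filter, not_not, Multiset.mem_toFinset, mem_roots h0] at hy
        have h1 : (sq g).eval y = 0 := hy.2
        have h2 : q.eval y = 0 := hy.1
        rw [hq, eval_mem, h1, mul_zero, sub_zero] at h2
        rw [← norm_vec] at h1 h2
        constructor
        · exact norm_eq_zero.1 (pow_eq_zero_iff two_ne_zero |>.1 h2)
        · exact norm_eq_zero.1 (pow_eq_zero_iff two_ne_zero |>.1 h1)
      by_cases hfi : ∃ i, f i ≠ 0
      · obtain ⟨i, hi⟩ := hfi
        have h3 : Z ⊆ (f i).roots.toFinset := by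
          intro y hy
          rw [Multiset.mem_toFinset, mem_roots hi]
          have h4 := congrArg (fun v : EuclideanSpace ℝ ι => v i) (hZ' y hy).1
          exact h4
        exact (Finset.card_le_card h3).trans (nr_le _ M (hf i))
      · by_cases hgj : ∃ j, g j ≠ 0
        · obtain ⟨j, hj⟩ := hgj
          have h3 : Z ⊆ (g j).roots.toFinset := by
            intro y hy
            rw [Multiset.mem_toFinset, mem_roots hj]
            have h4 := congrArg (fun v : EuclideanSpace ℝ κ => v j) (hZ' y hy).2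
            exact h4
          exact (Finset.card_le_card h3).trans (nr_le _ M (hg j))
        · exfalso
          apply h0
          rw [hq, mem]
          have e1 : sq f = 0 := by
            refine Finset.sum_eq_zero fun i _ => ?_
            have : f i = 0 := by
              by_contra h
              exact hfi ⟨i, h⟩
            rw [this]
            ring
          have e2 : sq g = 0 := by
            refine Finset.sum_eq_zero fun i _ => ?_
            have : g i = 0 := by
              by_contra h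
              exact hgj ⟨i, h⟩
            rw [this]
            ring
          rw [e1, e2]
          simp
    have hRc : (R.card : ℝ≥0∞) ≤ liminf (fun n => cnt f g n t) atTop := by
      refine le_liminf_of_le (by isBoundedDefault) ?_
      have h1 := count_roots_le q R (by
        intro y hy
        rw [hR, Finset.mem_filter, Multiset.mem_toFinset, mem_roots h0] at hy
        have h2 : q.eval y = 0 := hy.1
        refine ⟨h2, simple f g t ht y h0 hy.2 h2, fun hr => ?_⟩
        exact ht ⟨y, hy.2, h2, Or.inl hr⟩)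
      filter_upwards [h1] with n hn
      have h3 : cnt f g n t = (((Finset.range (2 * (n + 1) ^ 2)).filter fun j =>
          q.eval (grid n j) * q.eval (grid n (j + 1)) < 0).card : ℝ≥0∞) := by
        unfold cnt
        simp only [Set.indicator_apply, Set.mem_setOf_eq]
        rw [Finset.sum_boole]
      rw [h3]
      exact_mod_cast hn
    calc (nr q : ℝ≥0∞) = (R.card : ℝ≥0∞) + (Z.card : ℝ≥0∞) := by
          rw [hsum]
          push_cast
          rfl
      _ ≤ liminf (fun n => cnt f g n t) atTop + 2 * (M.card : ℝ≥0∞) := by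
          refine add_le_add hRc ?_
          exact_mod_cast hZc
      _ = _ := add_comm _ _
  · have hm2 : Measurable fun t => 2 * (M.card : ℝ≥0∞) + liminf (fun n => cnt f g n t) atTop :=
      measurable_const.add hL
    show ∫⁻ t, ((2 * (M.card : ℝ≥0∞) + liminf (fun n => cnt f g n t) atTop)
      + (Bad f g).indicator (fun _ => ∞) t) ∂nu ≤ _
    rw [lintegral_add_left hm2, lintegral_add_left measurable_const,
      lintegral_const, measure_univ, mul_one, lintegral_indicator hBm, setLIntegral_const,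
      nu_null _ (bad_countable f g), mul_zero, add_zero]
    have h1 : ∫⁻ t, liminf (fun n => cnt f g n t) atTop ∂nu ≤ 8 * (M.card : ℝ≥0∞) := by
      refine (lintegral_liminf_le fun n => cnt_meas f g n).trans ?_
      refine (liminf_le_liminf (v := fun _ => 8 * (M.card : ℝ≥0∞))
        (Eventually.of_forall fun n => cnt_le f g M hf hg n)).trans ?_
      rw [liminf_const]
    calc _ ≤ 2 * (M.card : ℝ≥0∞) + 8 * (M.card : ℝ≥0∞) := by gcongr
      _ = 10 * (M.card : ℝ≥0∞) := by rw [← add_mul]; norm_num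

end

end Pool.Agent.TH322.SQ
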