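import Pool.Agent.TH322.SQ.Pair
import Pool.Agent.W878.RT.MS2

/-!
# The expected number of roots for Cauchy scalars
-/

set_option autoImplicit false

open MeasureTheory ProbabilityTheory Polynomial Filter
open scoped ENNReal NNReal RealInnerProductSpace Topology

namespace Pool.Agent.TH322.SQ
open Pool.Agent.W945.Sos

/-- the random polynomial -/
noncomputable def FF {n : ℕ} (f : Fin n → ℝ[X]) (c : Fin n → ℝ) : ℝ[X] := ∑ i, C (c i) * f i ^ 2

theorem eval_FF {n : ℕ} (f : Fin n → ℝ[X]) (c : Fin n → ℝ) (x : ℝ) :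
    (FF f c).eval x = val c (fun i => (f i).eval x) := by
  rw [FF, val, eval_finsetSum]
  refine Finset.sum_congr rfl fun i _ => ?_
  rw [eval_mul, eval_C, eval_pow]

theorem val_smul {n : ℕ} (c w : Fin n → ℝ) (r : ℝ) : val c (fun i => r * w i) = r ^ 2 * val c w := by
  rw [val, val, Finset.mul_sum]
  refine Finset.sum_congr rfl fun i _ => ?_
  ring

/-- two points -/
theorem pair_c {n : ℕ} (f : Fin (n + 1) → ℝ[X]) (x y : ℝ) :
    ((H (n + 1)).prod (H (n + 1))) {z | (FF f (fun i => z.2 i / z.1 i)).eval x *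
        (FF f (fun i => z.2 i / z.1 i)).eval y < 0}
      ≤ 15 * (stdGaussian (EuclideanSpace ℝ (Fin (n + 1)))) {a | (lin f a).eval x * (lin f a).eval y < 0} := by
  by_cases hx : vec f x = 0
  · have hx' : ∀ i, (f i).eval x = 0 := fun i => congrArg (fun v : EuclideanSpace ℝ (Fin (n + 1)) => v i) hx
    have : {z : (Fin (n + 1) → ℝ) × (Fin (n + 1) → ℝ) | (FF f (fun i => z.2 i / z.1 i)).eval x *
        (FF f (fun i => z.2 i / z.1 i)).eval y < 0} = ∅ := by
      ext z
      simp [eval_FF, val, hx']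
    rw [this, measure_empty]
    exact zero_le
  by_cases hy : vec f y = 0
  · have hy' : ∀ i, (f i).eval y = 0 := fun i => congrArg (fun v : EuclideanSpace ℝ (Fin (n + 1)) => v i) hy
    have : {z : (Fin (n + 1) → ℝ) × (Fin (n + 1) → ℝ) | (FF f (fun i => z.2 i / z.1 i)).eval x *
        (FF f (fun i => z.2 i / z.1 i)).eval y < 0} = ∅ := by
      ext z
      simp [eval_FF, val, hy']
    rw [this, measure_empty]
    exact zero_le
  have hx0 : 0 < ‖vec f x‖ := norm_pos_iff.2 hx
  have hy0 : 0 < ‖vec f y‖ := norm_pos_iff.2 hy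
  set r := ‖vec f x‖ with hr
  set r' := ‖vec f y‖ with hr'
  set w : Fin (n + 1) → ℝ := fun i => r⁻¹ * (f i).eval x with hw
  set w' : Fin (n + 1) → ℝ := fun i => r'⁻¹ * (f i).eval y with hw'
  set u : EuclideanSpace ℝ (Fin (n + 1)) := r⁻¹ • vec f x with hu
  set v : EuclideanSpace ℝ (Fin (n + 1)) := r'⁻¹ • vec f y with hv
  have hu1 : ‖u‖ = 1 := by
    rw [hu, norm_smul, norm_inv, Real.norm_of_nonneg hx0.le, ← hr, inv_mul_cancel₀ hx0.ne']
  have hv1 : ‖v‖ = 1 := by
    rw [hv, norm_smul, norm_inv, Real.norm_of_nonneg hy0.le, ← hr', inv_mul_cancel₀ hy0.ne']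
  have hui : ∀ i, u i = w i := fun i => rfl
  have hvi : ∀ i, v i = w' i := fun i => rfl
  have hws : ∑ i, w i ^ 2 = 1 := by
    have := EuclideanSpace.real_norm_sq_eq u
    rw [hu1, one_pow] at this
    exact this.symm
  have hws' : ∑ i, w' i ^ 2 = 1 := by
    have := EuclideanSpace.real_norm_sq_eq v
    rw [hv1, one_pow] at this
    exact this.symm
  have hscale : ∀ c : Fin (n + 1) → ℝ, (FF f c).eval x * (FF f c).eval y < 0 ↔ val c w * val c w' < 0 := by
    intro c
    have e1 : val c w = (r⁻¹) ^ 2 * (FF f c).eval x := by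
      rw [eval_FF, ← val_smul]
    have e2 : val c w' = (r'⁻¹) ^ 2 * (FF f c).eval y := by
      rw [eval_FF, ← val_smul]
    rw [e1, e2]
    have h4 : 0 < (r⁻¹) ^ 2 * (r'⁻¹) ^ 2 := by positivity
    have h5 : (r⁻¹) ^ 2 * (FF f c).eval x * ((r'⁻¹) ^ 2 * (FF f c).eval y)
        = ((r⁻¹) ^ 2 * (r'⁻¹) ^ 2) * ((FF f c).eval x * (FF f c).eval y) := by ring
    rw [h5]
    constructor
    · intro h5
      exact mul_neg_of_pos_of_neg h4 h5
    · intro h5
      by_contra hc
      have := mul_nonneg h4.le (not_lt.1 hc)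
      linarith
  have hset : {z : (Fin (n + 1) → ℝ) × (Fin (n + 1) → ℝ) | (FF f (fun i => z.2 i / z.1 i)).eval x *
        (FF f (fun i => z.2 i / z.1 i)).eval y < 0}
      = {z | val (fun i => z.2 i / z.1 i) w * val (fun i => z.2 i / z.1 i) w' < 0} := by
    ext z
    exact hscale _
  by_cases hopp : v = -u
  · have hww : ∀ i, w' i = - w i := by
      intro i
      rw [← hui, ← hvi, hopp]
      rfl
    have hval : ∀ c, val c w' = val c w := by
      intro c
      rw [val, val]
      refine Finset.sum_congr rfl fun i _ => ?_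
      rw [hww i]
      ring
    have : {z : (Fin (n + 1) → ℝ) × (Fin (n + 1) → ℝ) |
        val (fun i => z.2 i / z.1 i) w * val (fun i => z.2 i / z.1 i) w' < 0} = ∅ := by
      ext z
      simp only [Set.mem_ofPred_eq, Set.mem_empty_iff_false, iff_false, not_lt, hval]
      exact mul_self_nonneg _
    rw [hset, this, measure_empty]
    exact zero_le
  · have h1 := unit_le w w' hws hws'
    have h2 := prob_ge u v hu1 hv1 hopp
    have h3 : √(∑ i, (w i - w' i) ^ 2) = ‖u - v‖ := by
      rw [← Real.sqrt_sq (norm_nonneg (u - v)), EuclideanSpace.real_norm_sq_eq]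
      rfl
    have h4 : {a : EuclideanSpace ℝ (Fin (n + 1)) | (inner ℝ u a : ℝ) * inner ℝ v a < 0}
        = {a | (lin f a).eval x * (lin f a).eval y < 0} := by
      ext a
      change (inner ℝ u a : ℝ) * inner ℝ v a < 0 ↔ (lin f a).eval x * (lin f a).eval y < 0
      rw [eval_lin, eval_lin, hu, hv, real_inner_smul_left, real_inner_smul_left]
      have h4 : 0 < r⁻¹ * r'⁻¹ := by positivity
      have h5 : r⁻¹ * inner ℝ (vec f x) a * (r'⁻¹ * inner ℝ (vec f y) a)
          = (r⁻¹ * r'⁻¹) * (inner ℝ (vec f x) a * inner ℝ (vec f y) a) := by ring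
      rw [h5]
      constructor
      · intro h5
        by_contra hc
        have := mul_nonneg h4.le (not_lt.1 hc)
        linarith
      · intro h5
        exact mul_neg_of_pos_of_neg h4 h5
    rw [hset, ← h4]
    rw [h3] at h1
    calc _ ≤ ENNReal.ofReal (9 / 2 * ‖u - v‖) := h1
      _ ≤ ENNReal.ofReal (15 * (‖u - v‖ / Real.pi)) := by
          refine ENNReal.ofReal_le_ofReal ?_
          rw [← mul_div_assoc, le_div_iff₀ Real.pi_pos]
          have := Real.pi_lt_d2
          nlinarith [norm_nonneg (u - v)]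
      _ = 15 * ENNReal.ofReal (‖u - v‖ / Real.pi) := by
          rw [ENNReal.ofReal_mul (by norm_num)]
          norm_num
      _ ≤ _ := by gcongr

/-- counting strict sign changes -/
theorem card_strict (D : ℝ[X]) (hD : D ≠ 0) (x : ℕ → ℝ) (hx : StrictMono x) (J : Finset ℕ)
    (hJ : ∀ j ∈ J, D.eval (x j) * D.eval (x (j + 1)) < 0) : J.card ≤ nr D := by
  classical
  have h0 : ∀ j ∈ J, ∃ y, x j < y ∧ y < x (j + 1) ∧ D.eval y = 0 := by
    intro j hj
    have hlt : x j < x (j + 1) := hx (Nat.lt_succ_self j)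
    have hcont : ContinuousOn (fun y => D.eval y) (Set.Icc (x j) (x (j + 1))) :=
      D.continuous.continuousOn
    rcases mul_neg_iff.1 (hJ j hj) with ⟨h1, h2⟩ | ⟨h1, h2⟩
    · obtain ⟨y, hy, hy0⟩ := intermediate_value_Ioo' hlt.le hcont ⟨h2, h1⟩
      exact ⟨y, hy.1, hy.2, hy0⟩
    · obtain ⟨y, hy, hy0⟩ := intermediate_value_Ioo hlt.le hcont ⟨h1, h2⟩
      exact ⟨y, hy.1, hy.2, hy0⟩
  choose! ρ h1 h2 h3 using h0
  refine Finset.card_le_card_of_injOn ρ ?_ ?_
  · intro j hj
    rw [Finset.mem_coe, Multiset.mem_toFinset, mem_roots hD]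
    exact h3 j hj
  · intro i hi j hj hij
    have key : ∀ i ∈ J, ∀ j ∈ J, i < j → ρ i < ρ j := by
      intro i hi j hj h
      have h4 : x (i + 1) ≤ x j := hx.monotone h
      exact (h2 i hi).trans (h4.trans_lt (h1 j hj))
    rcases lt_trichotomy i j with h | h | h
    · exact absurd hij (key i hi j hj h).ne
    · exact h
    · exact absurd hij (key j hj i hi h).ne'

/-- the Gaussian side -/
theorem sum_lin {n : ℕ} (f : Fin (n + 1) → ℝ[X]) (M : Finset ℕ) (hf : ∀ i, (f i).support ⊆ M)
    (x : ℕ → ℝ) (hx : StrictMono x) (N : ℕ) :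
    ∑ j ∈ Finset.range N, (stdGaussian (EuclideanSpace ℝ (Fin (n + 1))))
      {a | (lin f a).eval (x j) * (lin f a).eval (x (j + 1)) < 0} ≤ 2 * (M.card : ℝ≥0∞) := by
  classical
  have hm : ∀ x y : ℝ, MeasurableSet {a : EuclideanSpace ℝ (Fin (n + 1)) |
      (lin f a).eval x * (lin f a).eval y < 0} := by
    intro x y
    simp only [eval_lin]
    exact measurableSet_lt (by fun_prop) measurable_const
  have h2 : ∑ j ∈ Finset.range N, (stdGaussian (EuclideanSpace ℝ (Fin (n + 1))))
      {a | (lin f a).eval (x j) * (lin f a).eval (x (j + 1)) < 0}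
      = ∫⁻ a, ∑ j ∈ Finset.range N, {a : EuclideanSpace ℝ (Fin (n + 1)) |
        (lin f a).eval (x j) * (lin f a).eval (x (j + 1)) < 0}.indicator (fun _ => (1 : ℝ≥0∞)) a
          ∂(stdGaussian (EuclideanSpace ℝ (Fin (n + 1)))) := by
    rw [lintegral_finsetSum _ fun j _ => measurable_const.indicator (hm _ _)]
    refine Finset.sum_congr rfl fun j _ => ?_
    rw [lintegral_indicator (hm _ _), setLIntegral_const, one_mul]
  rw [h2]
  calc _ ≤ ∫⁻ _a, 2 * (M.card : ℝ≥0∞) ∂(stdGaussian (EuclideanSpace ℝ (Fin (n + 1)))) := by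
        refine lintegral_mono fun a => ?_
        have h5 : ∑ j ∈ Finset.range N, {a : EuclideanSpace ℝ (Fin (n + 1)) |
            (lin f a).eval (x j) * (lin f a).eval (x (j + 1)) < 0}.indicator (fun _ => (1 : ℝ≥0∞)) a
            = (((Finset.range N).filter fun j =>
              (lin f a).eval (x j) * (lin f a).eval (x (j + 1)) < 0).card : ℝ≥0∞) := by
          simp only [Set.indicator_apply, Set.mem_ofPred_eq]
          rw [Finset.sum_boole]
        rw [h5]
        by_cases h0 : lin f a = 0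
        · rw [h0]
          simp
        have h6 := card_strict (lin f a) h0 x hx ((Finset.range N).filter fun j =>
              (lin f a).eval (x j) * (lin f a).eval (x (j + 1)) < 0)
          (fun j hj => (Finset.mem_filter.1 hj).2)
        have h7 := nr_le (lin f a) M (supp_lin f M hf a)
        have h8 := h6.trans h7
        calc _ ≤ ((2 * M.card : ℕ) : ℝ≥0∞) := by exact_mod_cast h8
          _ = _ := by push_cast; rfl
    _ = _ := by rw [lintegral_const, measure_univ, mul_one]

/-- the law of the scalars -/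
theorem law (n : ℕ) : (Measure.pi fun _ : Fin n => cauchyMeasure 0 1)
    = ((H n).prod (H n)).map (fun z i => z.2 i / z.1 i) := by
  have hmd : Measurable (fun z : ℝ × ℝ => z.2 / z.1) := measurable_snd.div measurable_fst
  have h1 : cauchyMeasure 0 1 = nu := by
    refine Measure.ext fun s hs => ?_
    have h2 : nu s = ∫⁻ t, s.indicator (fun _ => (1 : ℝ≥0∞)) t ∂nu := by
      rw [lintegral_indicator hs, setLIntegral_const, one_mul]
    rw [h2, nu_lint _ (measurable_const.indicator hs), cauchyMeasure_of_scale_ne_zero _ (by norm_num),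
      withDensity_apply _ hs, ← lintegral_indicator hs]
    refine lintegral_congr fun t => ?_
    by_cases ht : t ∈ s
    · rw [Set.indicator_of_mem ht, Set.indicator_of_mem ht, one_mul, cauchyPDF_def, cauchyPDFReal_def]
      congr 1
      simp
      ring
    · rw [Set.indicator_of_notMem ht, Set.indicator_of_notMem ht, zero_mul]
  rw [h1]
  have h3 := Measure.pi_map_pi (μ := fun _ : Fin n => (gaussianReal 0 1).prod (gaussianReal 0 1))
    (f := fun _ => fun z : ℝ × ℝ => z.2 / z.1) (hμ := fun _ => by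
      have : IsProbabilityMeasure (((gaussianReal 0 1).prod (gaussianReal 0 1)).map
        (fun z : ℝ × ℝ => z.2 / z.1)) := Measure.isProbabilityMeasure_map hmd.aemeasurable
      infer_instance) (fun _ => hmd.aemeasurable)
  have h4 := measurePreserving_arrowProdEquivProdArrow ℝ ℝ (Fin n) (fun _ => gaussianReal 0 1)
    (fun _ => gaussianReal 0 1)
  have h5 : (H n).prod (H n) = (Measure.pi fun _ : Fin n => (gaussianReal 0 1).prod
      (gaussianReal 0 1)).map (MeasurableEquiv.arrowProdEquivProdArrow ℝ ℝ (Fin n)) := h4.map_eq.symm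
  have hm2 : Measurable fun z : (Fin n → ℝ) × (Fin n → ℝ) => fun i => z.2 i / z.1 i := by
    refine measurable_pi_lambda _ fun i => ?_
    exact ((measurable_pi_apply i).comp measurable_snd).div
      ((measurable_pi_apply i).comp measurable_fst)
  rw [h5, Measure.map_map hm2 (MeasurableEquiv.measurable _)]
  unfold nu
  rw [← h3]
  rfl

end Pool.Agent.TH322.SQ
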