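import Pool.Agent.TH322.SQ.Gauss

/-!
# The law of the ratio is the Cauchy law
-/

set_option autoImplicit false

open MeasureTheory ProbabilityTheory
open scoped ENNReal NNReal RealInnerProductSpace

namespace Pool.Agent.TH322.SQ

theorem inner_int (b : ℝ) (hb : 0 < b) :
    ∫⁻ x : ℝ, ENNReal.ofReal (|x| * Real.exp (-b * x ^ 2)) = ENNReal.ofReal (b⁻¹) := by
  have h1 : ∫ x : ℝ, |x| * Real.exp (-b * x ^ 2) = b⁻¹ := by
    have h2 : (fun x : ℝ => |x| * Real.exp (-b * x ^ 2))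
        = fun x : ℝ => (fun y : ℝ => y * Real.exp (-b * y ^ 2)) |x| := by
      funext x
      simp only [sq_abs]
    rw [h2, integral_comp_abs (f := fun y : ℝ => y * Real.exp (-b * y ^ 2))]
    have h3 := integral_rpow_mul_exp_neg_mul_rpow (p := 2) (q := 1) (b := b) (by norm_num)
      (by norm_num) hb
    have h4 : ∫ x in Set.Ioi (0 : ℝ), x * Real.exp (-b * x ^ 2)
        = ∫ x in Set.Ioi (0 : ℝ), x ^ (1 : ℝ) * Real.exp (-b * x ^ (2 : ℝ)) := by
      refine setIntegral_congr_fun measurableSet_Ioi fun x hx => ?_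
      simp only [Real.rpow_one]
      norm_num
    rw [h4, h3]
    norm_num
    rw [Real.rpow_neg hb.le, Real.rpow_one]
    ring
  have hint : Integrable (fun x : ℝ => |x| * Real.exp (-b * x ^ 2)) := by
    have h5 := (integrable_mul_exp_neg_mul_sq hb).norm
    refine h5.congr (Filter.Eventually.of_forall fun x => ?_)
    simp only [norm_mul, Real.norm_eq_abs, abs_of_pos (Real.exp_pos _)]
  rw [← h1, ofReal_integral_eq_lintegral_ofReal hint]
  exact Filter.Eventually.of_forall fun x => by positivity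

theorem lint_scale (h : ℝ → ℝ≥0∞) (hh : Measurable h) (x : ℝ) (hx : x ≠ 0) :
    ∫⁻ y : ℝ, h (y / x) * gaussianPDF 0 1 y
      = ∫⁻ t : ℝ, ENNReal.ofReal |x| * (h t * gaussianPDF 0 1 (x * t)) := by
  have hm : Measurable fun y : ℝ => h (y / x) * gaussianPDF 0 1 y :=
    (hh.comp (measurable_id.div_const x)).mul (measurable_gaussianPDF 0 1)
  have h1 := Real.smul_map_volume_mul_left hx
  have h2 : ∫⁻ y : ℝ, h (y / x) * gaussianPDF 0 1 y
      = ∫⁻ y : ℝ, h (y / x) * gaussianPDF 0 1 y ∂(ENNReal.ofReal |x| •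
        Measure.map (fun y => x * y) volume) := by
    rw [h1]
  rw [h2, lintegral_smul_measure, lintegral_map hm (by fun_prop), smul_eq_mul,
    ← lintegral_const_mul']
  · refine lintegral_congr fun t => ?_
    rw [mul_div_cancel_left₀ _ hx]
  · exact ENNReal.ofReal_ne_top

theorem nu_lint (h : ℝ → ℝ≥0∞) (hh : Measurable h) :
    ∫⁻ t, h t ∂nu = ∫⁻ t : ℝ, h t * ENNReal.ofReal ((Real.pi * (1 + t ^ 2))⁻¹) := by
  have hmd : Measurable (fun z : ℝ × ℝ => z.2 / z.1) := measurable_snd.div measurable_fst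
  have hg : gaussianReal 0 1 = volume.withDensity (gaussianPDF 0 1) :=
    gaussianReal_of_var_ne_zero 0 (by norm_num)
  unfold nu
  rw [lintegral_map hh hmd, lintegral_prod (fun z : ℝ × ℝ => h (z.2 / z.1)) (hh.comp hmd).aemeasurable]
  have hm1 : Measurable fun x : ℝ => ∫⁻ y : ℝ, h (y / x) ∂(gaussianReal 0 1) :=
    (hh.comp hmd).lintegral_prod_right'
  have hA : ∫⁻ x : ℝ, ∫⁻ y : ℝ, h (y / x) ∂(gaussianReal 0 1) ∂(gaussianReal 0 1)
      = ∫⁻ x : ℝ, gaussianPDF 0 1 x * ∫⁻ y : ℝ, h (y / x) ∂(gaussianReal 0 1) := by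
    conv_lhs => rw [hg]
    rw [lintegral_withDensity_eq_lintegral_mul _ (measurable_gaussianPDF 0 1)]
    · rw [hg]; rfl
    · rw [← hg]; exact hm1
  have hB : ∀ x : ℝ, x ≠ 0 → ∫⁻ y : ℝ, h (y / x) ∂(gaussianReal 0 1)
      = ∫⁻ t : ℝ, ENNReal.ofReal |x| * (h t * gaussianPDF 0 1 (x * t)) := by
    intro x hx
    have hmy : Measurable fun y : ℝ => h (y / x) := hh.comp (measurable_id.div_const x)
    rw [← lint_scale h hh x hx, hg, lintegral_withDensity_eq_lintegral_mul _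
      (measurable_gaussianPDF 0 1) hmy]
    refine lintegral_congr fun y => ?_
    simp only [Pi.mul_apply]
    rw [mul_comm]
  show ∫⁻ x : ℝ, ∫⁻ y : ℝ, h (y / x) ∂(gaussianReal 0 1) ∂(gaussianReal 0 1) = _
  rw [hA]
  have hC : ∫⁻ x : ℝ, gaussianPDF 0 1 x * ∫⁻ y : ℝ, h (y / x) ∂(gaussianReal 0 1)
      = ∫⁻ x : ℝ, ∫⁻ t : ℝ, h t * ENNReal.ofReal
          ((2 * Real.pi)⁻¹ * (|x| * Real.exp (-((1 + t ^ 2) / 2) * x ^ 2))) := by
    refine lintegral_congr_ae ?_
    have h4 : ∀ᵐ x : ℝ, x ≠ 0 := by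
      rw [ae_iff]
      simp
    filter_upwards [h4] with x hx
    rw [hB x hx, ← lintegral_const_mul']
    · refine lintegral_congr fun t => ?_
      have e1 : gaussianPDF 0 1 x * (ENNReal.ofReal |x| * (h t * gaussianPDF 0 1 (x * t)))
          = h t * (gaussianPDF 0 1 x * gaussianPDF 0 1 (x * t) * ENNReal.ofReal |x|) := by ring
      rw [e1]
      congr 1
      unfold gaussianPDF
      rw [← ENNReal.ofReal_mul (gaussianPDFReal_nonneg _ _ _),
        ← ENNReal.ofReal_mul (mul_nonneg (gaussianPDFReal_nonneg _ _ _)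
          (gaussianPDFReal_nonneg _ _ _))]
      congr 1
      unfold gaussianPDFReal
      have e2 : (√(2 * Real.pi * ((1 : ℝ≥0) : ℝ)))⁻¹ * (√(2 * Real.pi * ((1 : ℝ≥0) : ℝ)))⁻¹
          = (2 * Real.pi)⁻¹ := by
        rw [NNReal.coe_one, mul_one, ← mul_inv, Real.mul_self_sqrt (by positivity)]
      have e3 : Real.exp (-(x - 0) ^ 2 / (2 * ((1 : ℝ≥0) : ℝ)))
          * Real.exp (-(x * t - 0) ^ 2 / (2 * ((1 : ℝ≥0) : ℝ)))
          = Real.exp (-((1 + t ^ 2) / 2) * x ^ 2) := by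
        rw [← Real.exp_add, NNReal.coe_one]
        congr 1
        ring
      calc _ = ((√(2 * Real.pi * ((1 : ℝ≥0) : ℝ)))⁻¹ * (√(2 * Real.pi * ((1 : ℝ≥0) : ℝ)))⁻¹)
            * (|x| * (Real.exp (-(x - 0) ^ 2 / (2 * ((1 : ℝ≥0) : ℝ)))
          * Real.exp (-(x * t - 0) ^ 2 / (2 * ((1 : ℝ≥0) : ℝ))))) := by ring
        _ = _ := by rw [e2, e3]
    · exact ENNReal.ofReal_ne_top
  rw [hC]
  have hmm : Measurable fun p : ℝ × ℝ => h p.2 * ENNReal.ofReal
      ((2 * Real.pi)⁻¹ * (|p.1| * Real.exp (-((1 + p.2 ^ 2) / 2) * p.1 ^ 2))) := by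
    refine (hh.comp measurable_snd).mul (ENNReal.measurable_ofReal.comp ?_)
    fun_prop
  rw [lintegral_lintegral_swap hmm.aemeasurable]
  refine lintegral_congr fun t => ?_
  have hb : 0 < (1 + t ^ 2) / 2 := by positivity
  have hm5 : Measurable fun x : ℝ => ENNReal.ofReal
      ((2 * Real.pi)⁻¹ * (|x| * Real.exp (-((1 + t ^ 2) / 2) * x ^ 2))) := by
    refine ENNReal.measurable_ofReal.comp ?_
    fun_prop
  have hm6 : Measurable fun x : ℝ => ENNReal.ofReal (|x| * Real.exp (-((1 + t ^ 2) / 2) * x ^ 2)) := by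
    refine ENNReal.measurable_ofReal.comp ?_
    fun_prop
  rw [lintegral_const_mul _ hm5]
  congr 1
  have h7 : ∫⁻ x : ℝ, ENNReal.ofReal
      ((2 * Real.pi)⁻¹ * (|x| * Real.exp (-((1 + t ^ 2) / 2) * x ^ 2)))
      = ∫⁻ x : ℝ, ENNReal.ofReal (2 * Real.pi)⁻¹
        * ENNReal.ofReal (|x| * Real.exp (-((1 + t ^ 2) / 2) * x ^ 2)) := by
    refine lintegral_congr fun x => ?_
    rw [← ENNReal.ofReal_mul (by positivity)]
  rw [h7, lintegral_const_mul _ hm6, inner_int _ hb, ← ENNReal.ofReal_mul (by positivity)]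
  congr 1
  field_simp

end Pool.Agent.TH322.SQ
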