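import Pool.Agent.TH322.SQ.Cau

/-!
# The expected number of roots for Cauchy scalars: conclusion
-/

set_option autoImplicit false

open MeasureTheory ProbabilityTheory Polynomial Filter
open scoped ENNReal NNReal RealInnerProductSpace Topology

namespace Pool.Agent.TH322.SQ
open Pool.Agent.W945.Sos

/-- the exceptional parameters of the pencil `G + t K` -/
def BadP (G K : ℝ[X]) : Set ℝ :=
  {t | ∃ y, K.eval y ≠ 0 ∧ (G + C t * K).eval y = 0 ∧ (y ∈ Set.range ((↑) : ℚ → ℝ) ∨
    (derivative G * K - G * derivative K ≠ 0 ∧ (derivative G * K - G * derivative K).eval y = 0))}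

theorem badP_countable (G K : ℝ[X]) : (BadP G K).Countable := by
  set W := derivative G * K - G * derivative K with hW
  have h1 : (Set.range ((↑) : ℚ → ℝ) ∪ (W.roots.toFinset : Set ℝ)).Countable :=
    (Set.countable_range _).union (Finset.countable_toSet _)
  have h2 : BadP G K ⊆ ⋃ y ∈ (Set.range ((↑) : ℚ → ℝ) ∪ (W.roots.toFinset : Set ℝ)),
      {t | K.eval y ≠ 0 ∧ (G + C t * K).eval y = 0} := by
    rintro t ⟨y, hy1, hy2, hy3⟩
    rw [Set.mem_iUnion₂]
    refine ⟨y, ?_, hy1, hy2⟩
    rcases hy3 with h | ⟨h3, h4⟩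
    · exact Or.inl h
    · right
      rw [Finset.mem_coe, Multiset.mem_toFinset, mem_roots h3]
      exact h4
  refine (Set.Countable.biUnion h1 fun y _ => ?_).mono h2
  refine Set.Finite.countable ?_
  refine Set.Finite.subset (s := {-(G.eval y) / (K.eval y)}) (Set.toFinite _) ?_
  rintro t ⟨h3, h4⟩
  rw [eval_add, eval_mul, eval_C] at h4
  rw [Set.mem_singleton_iff, eq_div_iff h3]
  linarith

theorem simpleP (G K : ℝ[X]) (t : ℝ) (ht : t ∉ BadP G K) (y : ℝ)
    (h0 : G + C t * K ≠ 0) (h1 : K.eval y ≠ 0) (h2 : (G + C t * K).eval y = 0) :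
    (derivative (G + C t * K)).eval y ≠ 0 := by
  intro h3
  set q := G + C t * K with hq
  have hW : derivative q * K - q * derivative K = derivative G * K - G * derivative K := by
    rw [hq, derivative_add, derivative_C_mul]
    ring
  by_cases hW0 : derivative G * K - G * derivative K = 0
  · rw [hW0, sub_eq_zero] at hW
    have hg0 : K ≠ 0 := by
      rintro h
      rw [h, eval_zero] at h1
      exact h1 rfl
    have hroot : q.IsRoot y := h2
    have hq' : derivative q ≠ 0 := by
      intro h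
      have h4 := natDegree_eq_zero_of_derivative_eq_zero h
      obtain ⟨c, hc⟩ := natDegree_eq_zero.1 h4
      rw [← hc, eval_C] at h2
      rw [← hc, h2, C_0] at h0
      exact h0 rfl
    have h5 : derivative q * K ≠ 0 := mul_ne_zero hq' hg0
    have h6 := rootMultiplicity_mul (x := y) h5
    have h7 : q * derivative K ≠ 0 := hW ▸ h5
    have h8 := rootMultiplicity_mul (x := y) h7
    have h9 := derivative_rootMultiplicity_of_root hroot
    have h10 : rootMultiplicity y K = 0 := rootMultiplicity_eq_zero h1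
    have h11 : 0 < rootMultiplicity y q := (rootMultiplicity_pos h0).2 hroot
    rw [hW] at h6
    omega
  · apply ht
    refine ⟨y, h1, h2, Or.inr ⟨hW0, ?_⟩⟩
    rw [← hW, eval_sub, eval_mul, eval_mul, h3, h2]
    ring

/-- the law of the scalars -/
noncomputable def P (n : ℕ) : Measure (Fin n → ℝ) := Measure.pi fun _ => cauchyMeasure 0 1

theorem cauchy_eq : cauchyMeasure 0 1 = nu := by
  refine Measure.ext fun s hs => ?_
  have h2 : nu s = ∫⁻ t, s.indicator (fun _ => (1 : ℝ≥0∞)) t ∂nu := by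
    rw [lintegral_indicator hs, setLIntegral_const, one_mul]
  rw [h2, nu_lint _ (measurable_const.indicator hs), cauchyMeasure_of_scale_ne_zero _ (by norm_num),
    withDensity_apply _ hs, ← lintegral_indicator hs]
  refine lintegral_congr fun t => ?_
  by_cases ht : t ∈ s
  · rw [Set.indicator_of_mem ht, Set.indicator_of_mem ht, one_mul, cauchyPDF_def, cauchyPDFReal_def]
    congr 1
    simp
    ring
  · rw [Set.indicator_of_notMem ht, Set.indicator_of_notMem ht, zero_mul]

instance : IsProbabilityMeasure (cauchyMeasure 0 1) := by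
  rw [cauchy_eq]
  infer_instance

instance (n : ℕ) : IsProbabilityMeasure (P n) := by unfold P; infer_instance

theorem meas_c {n : ℕ} (f : Fin n → ℝ[X]) (x y : ℝ) :
    MeasurableSet {c : Fin n → ℝ | (FF f c).eval x * (FF f c).eval y < 0} := by
  have h : ∀ x : ℝ, Measurable fun c : Fin n → ℝ => (FF f c).eval x := by
    intro x
    simp only [eval_FF, val]
    exact Finset.measurable_sum _ fun i _ => (measurable_pi_apply i).mul_const _
  exact measurableSet_lt ((h x).mul (h y)) measurable_const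

/-- the number of sign changes along the grid -/
noncomputable def cntc {n : ℕ} (f : Fin n → ℝ[X]) (N : ℕ) (c : Fin n → ℝ) : ℝ≥0∞ :=
  ∑ j ∈ Finset.range (2 * (N + 1) ^ 2),
    {c | (FF f c).eval (grid N j) * (FF f c).eval (grid N (j + 1)) < 0}.indicator
      (fun _ => (1 : ℝ≥0∞)) c

theorem cntc_meas {n : ℕ} (f : Fin n → ℝ[X]) (N : ℕ) : Measurable (cntc f N) := by
  unfold cntc
  exact Finset.measurable_sum _ fun j _ => measurable_const.indicator (meas_c f _ _)

theorem cntc_le {n : ℕ} (f : Fin (n + 1) → ℝ[X]) (M : Finset ℕ) (hf : ∀ i, (f i).support ⊆ M)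
    (N : ℕ) : ∫⁻ c, cntc f N c ∂(P (n + 1)) ≤ 30 * (M.card : ℝ≥0∞) := by
  unfold cntc
  rw [lintegral_finsetSum _ fun j _ => measurable_const.indicator (meas_c f _ _)]
  have h1 : ∀ x y : ℝ, ∫⁻ c, {c | (FF f c).eval x * (FF f c).eval y < 0}.indicator
      (fun _ => (1 : ℝ≥0∞)) c ∂(P (n + 1)) ≤ 15 * (stdGaussian (EuclideanSpace ℝ (Fin (n + 1))))
        {a | (lin f a).eval x * (lin f a).eval y < 0} := by
    intro x y
    have hm2 : Measurable fun z : (Fin (n + 1) → ℝ) × (Fin (n + 1) → ℝ) => fun i => z.2 i / z.1 i := by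
      refine measurable_pi_lambda _ fun i => ?_
      exact ((measurable_pi_apply i).comp measurable_snd).div
        ((measurable_pi_apply i).comp measurable_fst)
    rw [lintegral_indicator (meas_c f _ _), setLIntegral_const, one_mul, P, law,
      Measure.map_apply hm2 (meas_c f _ _)]
    exact pair_c f x y
  calc _ ≤ ∑ j ∈ Finset.range (2 * (N + 1) ^ 2), 15 * (stdGaussian (EuclideanSpace ℝ (Fin (n + 1))))
        {a | (lin f a).eval (grid N j) * (lin f a).eval (grid N (j + 1)) < 0} :=
        Finset.sum_le_sum fun j _ => h1 _ _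
    _ = 15 * ∑ j ∈ Finset.range (2 * (N + 1) ^ 2), (stdGaussian (EuclideanSpace ℝ (Fin (n + 1))))
        {a | (lin f a).eval (grid N j) * (lin f a).eval (grid N (j + 1)) < 0} := by
        rw [Finset.mul_sum]
    _ ≤ 15 * (2 * (M.card : ℝ≥0∞)) := by
        gcongr
        exact sum_lin f M hf (grid N) (grid_mono N) _
    _ = _ := by rw [← mul_assoc]; norm_num

/-- the pointwise bound -/
theorem nr_bound {n : ℕ} (f : Fin (n + 1) → ℝ[X]) (M : Finset ℕ) (hf : ∀ i, (f i).support ⊆ M)
    (i₀ : Fin (n + 1)) (h0 : f i₀ ≠ 0) (c : Fin (n + 1) → ℝ)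
    (hc : c i₀ ∉ BadP (∑ j, C (c (i₀.succAbove j)) * f (i₀.succAbove j) ^ 2) (f i₀ ^ 2)) :
    (nr (FF f c) : ℝ≥0∞) ≤ 2 * (M.card : ℝ≥0∞) + liminf (fun N => cntc f N c) atTop := by
  classical
  set G : ℝ[X] := ∑ j, C (c (i₀.succAbove j)) * f (i₀.succAbove j) ^ 2 with hG
  have hFF : FF f c = G + C (c i₀) * f i₀ ^ 2 := by
    rw [FF, Fin.sum_univ_succAbove _ i₀, add_comm]
  by_cases hq0 : FF f c = 0
  · rw [hq0]
    simp [nr]
  set q := FF f c with hq
  set R : Finset ℝ := q.roots.toFinset.filter fun y => (f i₀ ^ 2).eval y ≠ 0 with hR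
  set Z : Finset ℝ := q.roots.toFinset.filter fun y => ¬ (f i₀ ^ 2).eval y ≠ 0 with hZ
  have hsum : nr q = R.card + Z.card := by
    rw [nr, hR, hZ, Finset.card_filter_add_card_filter_not]
  have hZc : Z.card ≤ 2 * M.card := by
    have h3 : Z ⊆ (f i₀).roots.toFinset := by
      intro y hy
      rw [hZ, Finset.mem_filter, not_not, eval_pow] at hy
      rw [Multiset.mem_toFinset, mem_roots h0]
      exact pow_eq_zero_iff two_ne_zero |>.1 hy.2
    exact (Finset.card_le_card h3).trans (nr_le _ M (hf i₀))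
  have hRc : (R.card : ℝ≥0∞) ≤ liminf (fun N => cntc f N c) atTop := by
    refine le_liminf_of_le (by isBoundedDefault) ?_
    have h1 := count_roots_le q R (by
      intro y hy
      rw [hR, Finset.mem_filter, Multiset.mem_toFinset, mem_roots hq0] at hy
      have h2 : q.eval y = 0 := hy.1
      have h2' : (G + C (c i₀) * f i₀ ^ 2).eval y = 0 := by rw [← hFF]; exact h2
      refine ⟨h2, ?_, fun hr => hc ⟨y, hy.2, h2', Or.inl hr⟩⟩
      have h3 := simpleP G (f i₀ ^ 2) (c i₀) hc y (by rw [← hFF]; exact hq0) hy.2 h2'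
      rw [← hFF] at h3
      exact h3)
    filter_upwards [h1] with N hN
    have h3 : cntc f N c = (((Finset.range (2 * (N + 1) ^ 2)).filter fun j =>
        q.eval (grid N j) * q.eval (grid N (j + 1)) < 0).card : ℝ≥0∞) := by
      unfold cntc
      simp only [Set.indicator_apply, Set.mem_ofPred_eq]
      rw [Finset.sum_boole]
    rw [h3]
    exact_mod_cast hN
  calc (nr q : ℝ≥0∞) = (R.card : ℝ≥0∞) + (Z.card : ℝ≥0∞) := by
        rw [hsum]
        push_cast
        rfl
    _ ≤ liminf (fun N => cntc f N c) atTop + 2 * (M.card : ℝ≥0∞) := by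
        refine add_le_add hRc ?_
        exact_mod_cast hZc
    _ = _ := add_comm _ _

theorem nr_meas {n : ℕ} (f : Fin n → ℝ[X]) : Measurable fun c : Fin n → ℝ => nr (FF f c) :=
  (Pool.Agent.W878.RT.MS2.main n f).1

/-- the main theorem -/
theorem exp_le {n : ℕ} (f : Fin n → ℝ[X]) (M : Finset ℕ) (hf : ∀ i, (f i).support ⊆ M) :
    ∫⁻ c, (nr (FF f c) : ℝ≥0∞) ∂(P n) ≤ 32 * (M.card : ℝ≥0∞) := by
  classical
  by_cases hne : ∃ i, f i ≠ 0
  swap
  · have h1 : ∀ c, FF f c = 0 := by
      intro c
      refine Finset.sum_eq_zero fun i _ => ?_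
      have : f i = 0 := by
        by_contra h
        exact hne ⟨i, h⟩
      rw [this]
      ring
    simp [h1, nr]
  obtain ⟨i₀, h0⟩ := hne
  obtain ⟨m, rfl⟩ : ∃ m, n = m + 1 := ⟨n - 1, by have := i₀.2; omega⟩
  have hL : Measurable fun c => liminf (fun N => cntc f N c) atTop :=
    Measurable.liminf fun N => cntc_meas f N
  have hnm : Measurable fun c : Fin (m + 1) → ℝ => (nr (FF f c) : ℝ≥0∞) :=
    (measurable_from_top (f := fun k : ℕ => (k : ℝ≥0∞))).comp (nr_meas f)
  set B : Set (Fin (m + 1) → ℝ) := {c | 2 * (M.card : ℝ≥0∞) + liminf (fun N => cntc f N c) atTop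
    < (nr (FF f c) : ℝ≥0∞)} with hB
  have hBm : MeasurableSet B := measurableSet_lt (measurable_const.add hL) hnm
  have hB0 : P (m + 1) B = 0 := by
    have hmp := measurePreserving_piFinSuccAbove (fun _ : Fin (m + 1) => cauchyMeasure 0 1) i₀
    set e := MeasurableEquiv.piFinSuccAbove (fun _ : Fin (m + 1) => ℝ) i₀ with he
    have hB' : MeasurableSet (e.symm ⁻¹' B) := e.symm.measurable hBm
    have e1 : P (m + 1) B = ((cauchyMeasure 0 1).prod (P m)) (e.symm ⁻¹' B) := by
      have h1 := hmp.measure_preimage hB'.nullMeasurableSet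
      have h2 : (e ⁻¹' (e.symm ⁻¹' B)) = B := by
        rw [← Set.preimage_comp]
        simp
      rw [h2] at h1
      exact h1
    rw [e1, Measure.prod_apply_symm hB']
    refine (lintegral_eq_zero_iff (measurable_measure_prodMk_right hB')).2 ?_
    refine Eventually.of_forall fun z => ?_
    have h2 : (fun x : ℝ => (x, z)) ⁻¹' (e.symm ⁻¹' B)
        ⊆ BadP (∑ j, C (z j) * f (i₀.succAbove j) ^ 2) (f i₀ ^ 2) := by
      intro x hx
      by_contra hcon
      have h3 : e.symm (x, z) ∈ B := hx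
      have h4 : e.symm (x, z) = i₀.insertNth x z := rfl
      rw [h4] at h3
      have h5 := nr_bound f M hf i₀ h0 (i₀.insertNth x z) (by
        simpa using hcon)
      exact absurd h3 (not_lt.2 h5)
    refine measure_mono_null h2 ?_
    rw [cauchy_eq]
    exact nu_null _ (badP_countable _ _)
  have hae : ∀ᵐ c ∂(P (m + 1)), (nr (FF f c) : ℝ≥0∞)
      ≤ 2 * (M.card : ℝ≥0∞) + liminf (fun N => cntc f N c) atTop := by
    rw [ae_iff]
    simp only [not_le]
    exact hB0
  calc ∫⁻ c, (nr (FF f c) : ℝ≥0∞) ∂(P (m + 1))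
      ≤ ∫⁻ c, (2 * (M.card : ℝ≥0∞) + liminf (fun N => cntc f N c) atTop) ∂(P (m + 1)) :=
        lintegral_mono_ae hae
    _ = 2 * (M.card : ℝ≥0∞) + ∫⁻ c, liminf (fun N => cntc f N c) atTop ∂(P (m + 1)) := by
        rw [lintegral_add_left measurable_const, lintegral_const, measure_univ, mul_one]
    _ ≤ 2 * (M.card : ℝ≥0∞) + 30 * (M.card : ℝ≥0∞) := by
        gcongr
        refine (lintegral_liminf_le fun N => cntc_meas f N).trans ?_
        refine (liminf_le_liminf (v := fun _ => 30 * (M.card : ℝ≥0∞))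
          (Eventually.of_forall fun N => cntc_le f M hf N)).trans ?_
        rw [liminf_const]
    _ = _ := by rw [← add_mul]; norm_num

end Pool.Agent.TH322.SQ
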