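import Mathlib

/-!
# Gaussian vectors: the ratio of two linear functionals
-/

set_option autoImplicit false

open MeasureTheory ProbabilityTheory
open scoped ENNReal NNReal RealInnerProductSpace

namespace Pool.Agent.TH322.SQ

section
variable {E F : Type} [NormedAddCommGroup E] [InnerProductSpace ℝ E] [FiniteDimensional ℝ E]
  [MeasurableSpace E] [BorelSpace E] [NormedAddCommGroup F] [InnerProductSpace ℝ F]
  [FiniteDimensional ℝ F] [MeasurableSpace F] [BorelSpace F]

theorem map_inner (u : E) :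
    (stdGaussian E).map (fun a => inner ℝ u a) = (gaussianReal 0 1).map (fun x => ‖u‖ * x) := by
  have h1 := IsGaussian.map_eq_gaussianReal (μ := stdGaussian E) (innerSL ℝ u)
  rw [integral_strongDual_stdGaussian, variance_dual_stdGaussian, innerSL_apply_norm] at h1
  have h2 : (fun a => inner ℝ u a) = (⇑(innerSL ℝ u) : E → ℝ) := by
    funext a
    rw [innerSL_apply_apply]
  rw [h2, h1, gaussianReal_map_const_mul, mul_zero, mul_one]
  congr 1
  ext
  simp

/-- the law of the ratio of two independent standard Gaussian variables -/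
noncomputable def nu : Measure ℝ :=
  ((gaussianReal 0 1).prod (gaussianReal 0 1)).map (fun z : ℝ × ℝ => z.2 / z.1)

instance : IsProbabilityMeasure nu := by
  unfold nu
  exact Measure.isProbabilityMeasure_map (measurable_snd.div measurable_fst).aemeasurable

theorem gauss_noatoms : NullSingletonClass (gaussianReal 0 1) :=
  nullSingletonClass_gaussianReal (by norm_num)

/-- the law of the ratio -/
theorem prob_lt (u : E) (v : F) :
    ((stdGaussian E).prod (stdGaussian F)) {z | (inner ℝ v z.2) ^ 2 < (inner ℝ u z.1) ^ 2}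
      = nu {t | t ^ 2 * ‖v‖ ^ 2 < ‖u‖ ^ 2} := by
  have := gauss_noatoms
  have hm1 : Measurable fun a : E => inner ℝ u a := by fun_prop
  have hm2 : Measurable fun a : F => inner ℝ v a := by fun_prop
  have hm3 : Measurable fun x : ℝ => ‖u‖ * x := by fun_prop
  have hm4 : Measurable fun x : ℝ => ‖v‖ * x := by fun_prop
  have h1 : ((stdGaussian E).prod (stdGaussian F)).map (Prod.map (fun a => inner ℝ u a)
      (fun a => inner ℝ v a)) = ((gaussianReal 0 1).prod (gaussianReal 0 1)).map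
        (Prod.map (fun x => ‖u‖ * x) (fun x => ‖v‖ * x)) := by
    rw [← Measure.map_prod_map _ _ hm1 hm2, ← Measure.map_prod_map _ _ hm3 hm4, map_inner, map_inner]
  have hS : MeasurableSet {z : ℝ × ℝ | z.2 ^ 2 < z.1 ^ 2} :=
    measurableSet_lt (by fun_prop) (by fun_prop)
  have h2 : ((stdGaussian E).prod (stdGaussian F)) {z | (inner ℝ v z.2) ^ 2 < (inner ℝ u z.1) ^ 2}
      = (((stdGaussian E).prod (stdGaussian F)).map (Prod.map (fun a => inner ℝ u a)
      (fun a => inner ℝ v a))) {z : ℝ × ℝ | z.2 ^ 2 < z.1 ^ 2} := by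
    rw [Measure.map_apply (hm1.prodMap hm2) hS]
    rfl
  rw [h2, h1, Measure.map_apply (hm3.prodMap hm4) hS]
  unfold nu
  have hT : MeasurableSet {t : ℝ | t ^ 2 * ‖v‖ ^ 2 < ‖u‖ ^ 2} :=
    measurableSet_lt (by fun_prop) (by fun_prop)
  have hmd : Measurable (fun z : ℝ × ℝ => z.2 / z.1) := measurable_snd.div measurable_fst
  rw [Measure.map_apply hmd hT]
  have h3 : ∀ᵐ z : ℝ × ℝ ∂((gaussianReal 0 1).prod (gaussianReal 0 1)), z.1 ≠ 0 := by
    have h4 : ∀ᵐ x : ℝ ∂(gaussianReal 0 1), x ≠ 0 := by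
      rw [ae_iff]
      simp
    exact (Measure.quasiMeasurePreserving_fst (μ := gaussianReal 0 1) (ν := gaussianReal 0 1)).ae h4
  refine measure_congr ?_
  filter_upwards [h3] with z hz
  apply propext
  show (‖v‖ * z.2) ^ 2 < (‖u‖ * z.1) ^ 2 ↔ (z.2 / z.1) ^ 2 * ‖v‖ ^ 2 < ‖u‖ ^ 2
  have hz2 : 0 < z.1 ^ 2 := by positivity
  rw [div_pow, div_mul_eq_mul_div, div_lt_iff₀ hz2, mul_pow, mul_pow]
  constructor <;> intro h <;> nlinarith

/-- null sets -/
theorem null_eq (u : E) (v : F) (h : u ≠ 0 ∨ v ≠ 0) :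
    ∀ᵐ z ∂((stdGaussian E).prod (stdGaussian F)), (inner ℝ u z.1) ^ 2 ≠ (inner ℝ v z.2) ^ 2 := by
  have := gauss_noatoms
  have hm1 : Measurable fun a : E => inner ℝ u a := by fun_prop
  have hm2 : Measurable fun a : F => inner ℝ v a := by fun_prop
  have hm3 : Measurable fun x : ℝ => ‖u‖ * x := by fun_prop
  have hm4 : Measurable fun x : ℝ => ‖v‖ * x := by fun_prop
  have h1 : ((stdGaussian E).prod (stdGaussian F)).map (Prod.map (fun a => inner ℝ u a)
      (fun a => inner ℝ v a)) = ((gaussianReal 0 1).prod (gaussianReal 0 1)).map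
        (Prod.map (fun x => ‖u‖ * x) (fun x => ‖v‖ * x)) := by
    rw [← Measure.map_prod_map _ _ hm1 hm2, ← Measure.map_prod_map _ _ hm3 hm4, map_inner, map_inner]
  have hS : MeasurableSet {z : ℝ × ℝ | z.1 ^ 2 = z.2 ^ 2} :=
    measurableSet_eq_fun (by fun_prop) (by fun_prop)
  rw [ae_iff]
  have h2 : ((stdGaussian E).prod (stdGaussian F))
      {z | ¬ (inner ℝ u z.1) ^ 2 ≠ (inner ℝ v z.2) ^ 2}
      = (((stdGaussian E).prod (stdGaussian F)).map (Prod.map (fun a => inner ℝ u a)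
      (fun a => inner ℝ v a))) {z : ℝ × ℝ | z.1 ^ 2 = z.2 ^ 2} := by
    rw [Measure.map_apply (hm1.prodMap hm2) hS]
    congr 1
    ext z
    simp
  rw [h2, h1, Measure.map_apply (hm3.prodMap hm4) hS]
  have hS2 : MeasurableSet (Prod.map (fun x => ‖u‖ * x) (fun x => ‖v‖ * x) ⁻¹'
      {z : ℝ × ℝ | z.1 ^ 2 = z.2 ^ 2}) := (hm3.prodMap hm4) hS
  rcases eq_or_ne v 0 with hv | hv
  · have hu : u ≠ 0 := by
      rcases h with h | h
      · exact h
      · exact absurd hv h
    have hu' : ‖u‖ ≠ 0 := norm_ne_zero_iff.2 hu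
    rw [Measure.prod_apply_symm hS2]
    refine (lintegral_eq_zero_iff' (measurable_measure_prodMk_right hS2).aemeasurable).2 ?_
    refine Filter.Eventually.of_forall fun y => ?_
    have h3 : (fun x : ℝ => (x, y)) ⁻¹' (Prod.map (fun x => ‖u‖ * x) (fun x => ‖v‖ * x) ⁻¹'
      {z : ℝ × ℝ | z.1 ^ 2 = z.2 ^ 2}) ⊆ {0} := by
      intro x hx
      have h4 : (‖u‖ * x) ^ 2 = (‖v‖ * y) ^ 2 := hx
      rw [hv, norm_zero, zero_mul, zero_pow two_ne_zero] at h4
      have h5 := pow_eq_zero_iff (two_ne_zero) |>.1 h4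
      rcases mul_eq_zero.1 h5 with h6 | h6
      · exact absurd h6 hu'
      · exact h6
    exact measure_mono_null h3 (measure_singleton 0)
  · have hv' : ‖v‖ ≠ 0 := norm_ne_zero_iff.2 hv
    rw [Measure.prod_apply hS2]
    refine (lintegral_eq_zero_iff' (measurable_measure_prodMk_left hS2).aemeasurable).2 ?_
    refine Filter.Eventually.of_forall fun x => ?_
    have h3 : (fun y : ℝ => (x, y)) ⁻¹' (Prod.map (fun x => ‖u‖ * x) (fun x => ‖v‖ * x) ⁻¹'
      {z : ℝ × ℝ | z.1 ^ 2 = z.2 ^ 2}) ⊆ {‖u‖ * x / ‖v‖, -(‖u‖ * x / ‖v‖)} := by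
      intro y hy
      have h4 : (‖u‖ * x) ^ 2 = (‖v‖ * y) ^ 2 := hy
      rcases sq_eq_sq_iff_eq_or_eq_neg.1 h4 with h5 | h5
      · left
        rw [h5]
        field_simp
      · right
        rw [Set.mem_singleton_iff, h5]
        field_simp
    exact measure_mono_null h3 ((Set.toFinite _).measure_zero _)

end

end Pool.Agent.TH322.SQ
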