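import Pool.Agent.TH322.SQ.Exp

/-!
# The expected number of roots for Gaussian scalars
-/

set_option autoImplicit false

open MeasureTheory ProbabilityTheory Polynomial Filter
open scoped ENNReal NNReal RealInnerProductSpace Topology

namespace Pool.Agent.TH322.SQ
open Pool.Agent.W945.Sos

section gen
variable (μ : Measure ℝ) [IsProbabilityMeasure μ]

theorem gen_cntc_le {n : ℕ} (f : Fin (n + 1) → ℝ[X]) (M : Finset ℕ) (hf : ∀ i, (f i).support ⊆ M)
    (K : ℝ≥0∞) (hK : ∀ x y : ℝ, (Measure.pi fun _ : Fin (n + 1) => μ)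
      {c | (FF f c).eval x * (FF f c).eval y < 0} ≤ K * (stdGaussian (EuclideanSpace ℝ (Fin (n + 1))))
        {a | (lin f a).eval x * (lin f a).eval y < 0})
    (N : ℕ) : ∫⁻ c, cntc f N c ∂(Measure.pi fun _ : Fin (n + 1) => μ) ≤ K * (2 * (M.card : ℝ≥0∞)) := by
  unfold cntc
  rw [lintegral_finsetSum _ fun j _ => measurable_const.indicator (meas_c f _ _)]
  have h1 : ∀ x y : ℝ, ∫⁻ c, {c | (FF f c).eval x * (FF f c).eval y < 0}.indicator
      (fun _ => (1 : ℝ≥0∞)) c ∂(Measure.pi fun _ : Fin (n + 1) => μ)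
        ≤ K * (stdGaussian (EuclideanSpace ℝ (Fin (n + 1))))
        {a | (lin f a).eval x * (lin f a).eval y < 0} := by
    intro x y
    rw [lintegral_indicator (meas_c f _ _), setLIntegral_const, one_mul]
    exact hK x y
  calc _ ≤ ∑ j ∈ Finset.range (2 * (N + 1) ^ 2), K * (stdGaussian (EuclideanSpace ℝ (Fin (n + 1))))
        {a | (lin f a).eval (grid N j) * (lin f a).eval (grid N (j + 1)) < 0} :=
        Finset.sum_le_sum fun j _ => h1 _ _
    _ = K * ∑ j ∈ Finset.range (2 * (N + 1) ^ 2), (stdGaussian (EuclideanSpace ℝ (Fin (n + 1))))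
        {a | (lin f a).eval (grid N j) * (lin f a).eval (grid N (j + 1)) < 0} := by
        rw [Finset.mul_sum]
    _ ≤ K * (2 * (M.card : ℝ≥0∞)) := by
        gcongr
        exact sum_lin f M hf (grid N) (grid_mono N) _

theorem gen_exp_le {m : ℕ} (hnull : ∀ B : Set ℝ, B.Countable → μ B = 0) (f : Fin (m + 1) → ℝ[X])
    (M : Finset ℕ) (hf : ∀ i, (f i).support ⊆ M) (K : ℝ≥0∞)
    (hK : ∀ x y : ℝ, (Measure.pi fun _ : Fin (m + 1) => μ)
      {c | (FF f c).eval x * (FF f c).eval y < 0} ≤ K * (stdGaussian (EuclideanSpace ℝ (Fin (m + 1))))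
        {a | (lin f a).eval x * (lin f a).eval y < 0}) :
    ∫⁻ c, (nr (FF f c) : ℝ≥0∞) ∂(Measure.pi fun _ : Fin (m + 1) => μ)
      ≤ 2 * (M.card : ℝ≥0∞) + K * (2 * (M.card : ℝ≥0∞)) := by
  classical
  by_cases hne : ∃ i, f i ≠ 0
  swap
  · have h1 : ∀ c, FF f c = 0 := by
      intro c
      refine Finset.sum_eq_zero fun i _ => ?_
      have : f i = 0 := by
        by_contra h
        exact hne ⟨i, h⟩
      rw [this]
      ring
    simp [h1, nr]
  obtain ⟨i₀, h0⟩ := hne
  have hL : Measurable fun c => liminf (fun N => cntc f N c) atTop :=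
    Measurable.liminf fun N => cntc_meas f N
  have hnm : Measurable fun c : Fin (m + 1) → ℝ => (nr (FF f c) : ℝ≥0∞) :=
    (measurable_from_top (f := fun k : ℕ => (k : ℝ≥0∞))).comp (nr_meas f)
  set B : Set (Fin (m + 1) → ℝ) := {c | 2 * (M.card : ℝ≥0∞) + liminf (fun N => cntc f N c) atTop
    < (nr (FF f c) : ℝ≥0∞)} with hB
  have hBm : MeasurableSet B := measurableSet_lt (measurable_const.add hL) hnm
  have hB0 : (Measure.pi fun _ : Fin (m + 1) => μ) B = 0 := by
    have hmp := measurePreserving_piFinSuccAbove (fun _ : Fin (m + 1) => μ) i₀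
    set e := MeasurableEquiv.piFinSuccAbove (fun _ : Fin (m + 1) => ℝ) i₀ with he
    have hB' : MeasurableSet (e.symm ⁻¹' B) := e.symm.measurable hBm
    have e1 : (Measure.pi fun _ : Fin (m + 1) => μ) B
        = (μ.prod (Measure.pi fun _ : Fin m => μ)) (e.symm ⁻¹' B) := by
      have h1 := hmp.measure_preimage hB'.nullMeasurableSet
      have h2 : (e ⁻¹' (e.symm ⁻¹' B)) = B := by
        rw [← Set.preimage_comp]
        simp
      rw [h2] at h1
      exact h1
    rw [e1, Measure.prod_apply_symm hB']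
    refine (lintegral_eq_zero_iff (measurable_measure_prodMk_right hB')).2 ?_
    refine Eventually.of_forall fun z => ?_
    have h2 : (fun x : ℝ => (x, z)) ⁻¹' (e.symm ⁻¹' B)
        ⊆ BadP (∑ j, C (z j) * f (i₀.succAbove j) ^ 2) (f i₀ ^ 2) := by
      intro x hx
      by_contra hcon
      have h3 : e.symm (x, z) ∈ B := hx
      have h4 : e.symm (x, z) = i₀.insertNth x z := rfl
      rw [h4] at h3
      have h5 := nr_bound f M hf i₀ h0 (i₀.insertNth x z) (by
        simpa using hcon)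
      exact absurd h3 (not_lt.2 h5)
    exact measure_mono_null h2 (hnull _ (badP_countable _ _))
  have hae : ∀ᵐ c ∂(Measure.pi fun _ : Fin (m + 1) => μ), (nr (FF f c) : ℝ≥0∞)
      ≤ 2 * (M.card : ℝ≥0∞) + liminf (fun N => cntc f N c) atTop := by
    rw [ae_iff]
    simp only [not_le]
    exact hB0
  calc ∫⁻ c, (nr (FF f c) : ℝ≥0∞) ∂(Measure.pi fun _ : Fin (m + 1) => μ)
      ≤ ∫⁻ c, (2 * (M.card : ℝ≥0∞) + liminf (fun N => cntc f N c) atTop)
          ∂(Measure.pi fun _ : Fin (m + 1) => μ) :=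
        lintegral_mono_ae hae
    _ = 2 * (M.card : ℝ≥0∞) + ∫⁻ c, liminf (fun N => cntc f N c) atTop
          ∂(Measure.pi fun _ : Fin (m + 1) => μ) := by
        rw [lintegral_add_left measurable_const, lintegral_const, measure_univ, mul_one]
    _ ≤ 2 * (M.card : ℝ≥0∞) + K * (2 * (M.card : ℝ≥0∞)) := by
        gcongr
        refine (lintegral_liminf_le fun N => cntc_meas f N).trans ?_
        refine (liminf_le_liminf (v := fun _ => K * (2 * (M.card : ℝ≥0∞)))
          (Eventually.of_forall fun N => gen_cntc_le μ f M hf K hK N)).trans ?_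
        rw [liminf_const]

end gen

/-- two unit vectors -/
theorem unit_le_g {n : ℕ} (w w' : Fin (n + 1) → ℝ) (hw : ∑ i, w i ^ 2 = 1) (hw' : ∑ i, w' i ^ 2 = 1) :
    (H (n + 1)) {c | val c w * val c w' < 0}
      ≤ ENNReal.ofReal (√√((n : ℝ) + 1) * √(∑ i, (w i - w' i) ^ 2)) := by
  have hne : ∀ w : Fin (n + 1) → ℝ, ∑ i, w i ^ 2 = 1 → ∃ k, w k ≠ 0 := by
    intro w hw
    by_contra hc
    push Not at hc
    rw [Finset.sum_eq_zero (fun i _ => by rw [hc i]; ring)] at hw
    norm_num at hw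
  have h1 := slice w w' (fun _ => 1) (fun _ => one_ne_zero) (hne w hw) (hne w' hw')
  simp only [div_one, one_pow] at h1
  refine h1.trans (ENNReal.ofReal_le_ofReal ?_)
  rw [← Real.sqrt_mul (Real.sqrt_nonneg _)]
  refine Real.sqrt_le_sqrt ?_
  set Q : Fin (n + 1) → ℝ := fun i => w i ^ 2 + w' i ^ 2 with hQ
  have hQ0 : ∀ k, 0 ≤ Q k := fun k => by positivity
  have hQs : ∑ k, Q k = 2 := by
    rw [hQ, Finset.sum_add_distrib, hw, hw']
    norm_num
  set T : ℝ := ∑ i, Q i ^ 2 with hT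
  have hcs : (∑ k, Q k) ^ 2 ≤ ((n : ℝ) + 1) * T := by
    have h2 := sq_sum_le_card_mul_sum_sq (s := (Finset.univ : Finset (Fin (n + 1)))) (f := Q)
    rw [Finset.card_univ, Fintype.card_fin] at h2
    push_cast at h2
    exact h2
  rw [hQs] at hcs
  have hn : (0 : ℝ) < (n : ℝ) + 1 := by positivity
  have hT0 : 0 < T := by
    by_contra hc
    have := mul_nonpos_of_nonneg_of_nonpos hn.le (not_lt.1 hc)
    linarith
  set N₂ := √T with hN
  have hN0 : 0 < N₂ := Real.sqrt_pos.2 hT0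
  have hN2 : N₂ ^ 2 = T := Real.sq_sqrt hT0.le
  have hNs : 2 ≤ √((n : ℝ) + 1) * N₂ := by
    rw [hN, ← Real.sqrt_mul hn.le]
    refine Real.le_sqrt_of_sq_le ?_
    exact hcs
  have hQN : ∀ i, Q i ≤ N₂ := by
    intro i
    rw [hN]
    refine Real.le_sqrt_of_sq_le ?_
    exact Finset.single_le_sum (f := fun i => Q i ^ 2) (fun j _ => sq_nonneg _) (Finset.mem_univ i)
  have h3 : ∑ i, (w i ^ 2 - w' i ^ 2) ^ 2 ≤ 2 * N₂ * ∑ i, (w i - w' i) ^ 2 := by
    rw [Finset.mul_sum]
    refine Finset.sum_le_sum fun i _ => ?_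
    have h3 : (w i ^ 2 - w' i ^ 2) ^ 2 = (w i - w' i) ^ 2 * (w i + w' i) ^ 2 := by ring
    have h4 : (w i + w' i) ^ 2 ≤ 2 * Q i := by
      show (w i + w' i) ^ 2 ≤ 2 * (w i ^ 2 + w' i ^ 2)
      nlinarith [sq_nonneg (w i - w' i)]
    rw [h3]
    have h5 : (w i + w' i) ^ 2 ≤ 2 * N₂ := h4.trans (by linarith [hQN i])
    nlinarith [mul_le_mul_of_nonneg_left h5 (sq_nonneg (w i - w' i))]
  have hD : 0 ≤ ∑ i, (w i - w' i) ^ 2 := Finset.sum_nonneg fun i _ => sq_nonneg _
  show (∑ i, (w i ^ 2 - w' i ^ 2) ^ 2) / T ≤ _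
  rw [div_le_iff₀ hT0]
  refine h3.trans ?_
  rw [← hN2]
  have h6 : 2 * N₂ ≤ √((n : ℝ) + 1) * N₂ ^ 2 := by nlinarith
  nlinarith [mul_le_mul_of_nonneg_right h6 hD]

/-- two points -/
theorem pair_g {n : ℕ} (f : Fin (n + 1) → ℝ[X]) (x y : ℝ) :
    (H (n + 1)) {c | (FF f c).eval x * (FF f c).eval y < 0}
      ≤ ENNReal.ofReal (7 / 2 * √√((n : ℝ) + 1)) *
        (stdGaussian (EuclideanSpace ℝ (Fin (n + 1)))) {a | (lin f a).eval x * (lin f a).eval y < 0} := by
  by_cases hx : vec f x = 0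
  · have hx' : ∀ i, (f i).eval x = 0 := fun i => congrArg (fun v : EuclideanSpace ℝ (Fin (n + 1)) => v i) hx
    have : {c : Fin (n + 1) → ℝ | (FF f c).eval x * (FF f c).eval y < 0} = ∅ := by
      ext z
      simp [eval_FF, val, hx']
    rw [this, measure_empty]
    exact zero_le
  by_cases hy : vec f y = 0
  · have hy' : ∀ i, (f i).eval y = 0 := fun i => congrArg (fun v : EuclideanSpace ℝ (Fin (n + 1)) => v i) hy
    have : {c : Fin (n + 1) → ℝ | (FF f c).eval x * (FF f c).eval y < 0} = ∅ := by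
      ext z
      simp [eval_FF, val, hy']
    rw [this, measure_empty]
    exact zero_le
  have hx0 : 0 < ‖vec f x‖ := norm_pos_iff.2 hx
  have hy0 : 0 < ‖vec f y‖ := norm_pos_iff.2 hy
  set r := ‖vec f x‖ with hr
  set r' := ‖vec f y‖ with hr'
  set w : Fin (n + 1) → ℝ := fun i => r⁻¹ * (f i).eval x with hw
  set w' : Fin (n + 1) → ℝ := fun i => r'⁻¹ * (f i).eval y with hw'
  set u : EuclideanSpace ℝ (Fin (n + 1)) := r⁻¹ • vec f x with hu
  set v : EuclideanSpace ℝ (Fin (n + 1)) := r'⁻¹ • vec f y with hv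
  have hu1 : ‖u‖ = 1 := by
    rw [hu, norm_smul, norm_inv, Real.norm_of_nonneg hx0.le, ← hr, inv_mul_cancel₀ hx0.ne']
  have hv1 : ‖v‖ = 1 := by
    rw [hv, norm_smul, norm_inv, Real.norm_of_nonneg hy0.le, ← hr', inv_mul_cancel₀ hy0.ne']
  have hui : ∀ i, u i = w i := fun i => rfl
  have hvi : ∀ i, v i = w' i := fun i => rfl
  have hws : ∑ i, w i ^ 2 = 1 := by
    have := EuclideanSpace.real_norm_sq_eq u
    rw [hu1, one_pow] at this
    exact this.symm
  have hws' : ∑ i, w' i ^ 2 = 1 := by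
    have := EuclideanSpace.real_norm_sq_eq v
    rw [hv1, one_pow] at this
    exact this.symm
  have hscale : ∀ c : Fin (n + 1) → ℝ, (FF f c).eval x * (FF f c).eval y < 0 ↔ val c w * val c w' < 0 := by
    intro c
    have e1 : val c w = (r⁻¹) ^ 2 * (FF f c).eval x := by
      rw [eval_FF, ← val_smul]
    have e2 : val c w' = (r'⁻¹) ^ 2 * (FF f c).eval y := by
      rw [eval_FF, ← val_smul]
    rw [e1, e2]
    have h4 : 0 < (r⁻¹) ^ 2 * (r'⁻¹) ^ 2 := by positivity
    have h5 : (r⁻¹) ^ 2 * (FF f c).eval x * ((r'⁻¹) ^ 2 * (FF f c).eval y)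
        = ((r⁻¹) ^ 2 * (r'⁻¹) ^ 2) * ((FF f c).eval x * (FF f c).eval y) := by ring
    rw [h5]
    constructor
    · intro h5
      exact mul_neg_of_pos_of_neg h4 h5
    · intro h5
      by_contra hc
      have := mul_nonneg h4.le (not_lt.1 hc)
      linarith
  have hset : {c : Fin (n + 1) → ℝ | (FF f c).eval x * (FF f c).eval y < 0}
      = {c | val c w * val c w' < 0} := by
    ext z
    exact hscale _
  by_cases hopp : v = -u
  · have hww : ∀ i, w' i = - w i := by
      intro i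
      rw [← hui, ← hvi, hopp]
      rfl
    have hval : ∀ c, val c w' = val c w := by
      intro c
      rw [val, val]
      refine Finset.sum_congr rfl fun i _ => ?_
      rw [hww i]
      ring
    have : {c : Fin (n + 1) → ℝ | val c w * val c w' < 0} = ∅ := by
      ext z
      simp only [Set.mem_ofPred_eq, Set.mem_empty_iff_false, iff_false, not_lt, hval]
      exact mul_self_nonneg _
    rw [hset, this, measure_empty]
    exact zero_le
  · have h1 := unit_le_g w w' hws hws'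
    have h2 := prob_ge u v hu1 hv1 hopp
    have h3 : √(∑ i, (w i - w' i) ^ 2) = ‖u - v‖ := by
      rw [← Real.sqrt_sq (norm_nonneg (u - v)), EuclideanSpace.real_norm_sq_eq]
      rfl
    have h4 : {a : EuclideanSpace ℝ (Fin (n + 1)) | (inner ℝ u a : ℝ) * inner ℝ v a < 0}
        = {a | (lin f a).eval x * (lin f a).eval y < 0} := by
      ext a
      change (inner ℝ u a : ℝ) * inner ℝ v a < 0 ↔ (lin f a).eval x * (lin f a).eval y < 0
      rw [eval_lin, eval_lin, hu, hv, real_inner_smul_left, real_inner_smul_left]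
      have h4 : 0 < r⁻¹ * r'⁻¹ := by positivity
      have h5 : r⁻¹ * inner ℝ (vec f x) a * (r'⁻¹ * inner ℝ (vec f y) a)
          = (r⁻¹ * r'⁻¹) * (inner ℝ (vec f x) a * inner ℝ (vec f y) a) := by ring
      rw [h5]
      constructor
      · intro h5
        by_contra hc
        have := mul_nonneg h4.le (not_lt.1 hc)
        linarith
      · intro h5
        exact mul_neg_of_pos_of_neg h4 h5
    rw [hset, ← h4]
    rw [h3] at h1
    calc _ ≤ ENNReal.ofReal (√√((n : ℝ) + 1) * ‖u - v‖) := h1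
      _ ≤ ENNReal.ofReal (7 / 2 * √√((n : ℝ) + 1) * (‖u - v‖ / Real.pi)) := by
          refine ENNReal.ofReal_le_ofReal ?_
          rw [← mul_div_assoc, le_div_iff₀ Real.pi_pos]
          have h5 := Real.pi_lt_d2
          have h6 : 0 ≤ √√((n : ℝ) + 1) * ‖u - v‖ := by positivity
          nlinarith
      _ = ENNReal.ofReal (7 / 2 * √√((n : ℝ) + 1)) * ENNReal.ofReal (‖u - v‖ / Real.pi) := by
          rw [ENNReal.ofReal_mul (by positivity)]
      _ ≤ _ := by gcongr

/-- the main theorem -/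
theorem exp_le_g {n : ℕ} (f : Fin n → ℝ[X]) (M : Finset ℕ) (hf : ∀ i, (f i).support ⊆ M) :
    ∫⁻ c, (nr (FF f c) : ℝ≥0∞) ∂(H n) ≤ ENNReal.ofReal (9 * √√(n : ℝ)) * (M.card : ℝ≥0∞) := by
  rcases n with _ | m
  · have h1 : ∀ c, FF f c = 0 := fun c => Finset.sum_of_isEmpty _
    simp [h1, nr]
  · have := gauss_noatoms
    have h := gen_exp_le (gaussianReal 0 1) (fun B hB => by
      have : NullSingletonClass (gaussianReal 0 1) := gauss_noatoms
      exact hB.measure_zero _) f M hf _ (pair_g f)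
    refine le_trans h ?_
    push_cast
    have h1 : (1 : ℝ) ≤ √√((m : ℝ) + 1) := by
      rw [Real.one_le_sqrt, Real.one_le_sqrt]
      have : (0 : ℝ) ≤ m := by positivity
      linarith
    have h2 : (2 : ℝ≥0∞) ≤ ENNReal.ofReal (2 * √√((m : ℝ) + 1)) := by
      rw [show (2 : ℝ≥0∞) = ENNReal.ofReal 2 by norm_num]
      exact ENNReal.ofReal_le_ofReal (by linarith)
    calc 2 * (M.card : ℝ≥0∞) + ENNReal.ofReal (7 / 2 * √√((m : ℝ) + 1)) * (2 * (M.card : ℝ≥0∞))
        ≤ ENNReal.ofReal (2 * √√((m : ℝ) + 1)) * (M.card : ℝ≥0∞)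
          + ENNReal.ofReal (7 * √√((m : ℝ) + 1)) * (M.card : ℝ≥0∞) := by
          refine add_le_add (by gcongr) (le_of_eq ?_)
          rw [← mul_assoc]
          congr 1
          rw [mul_comm, show (2 : ℝ≥0∞) = ENNReal.ofReal 2 by norm_num, ← ENNReal.ofReal_mul (by norm_num)]
          congr 1
          ring
      _ = _ := by
          rw [← add_mul, ← ENNReal.ofReal_add (by positivity) (by positivity)]
          congr 2
          ring

end Pool.Agent.TH322.SQ
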