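import Pool.Agent.TH322.SQ.Rat
import Pool.Agent.TH322.SQ.Ang

/-!
# Two points
-/

set_option autoImplicit false

open MeasureTheory ProbabilityTheory Polynomial Filter
open scoped ENNReal NNReal RealInnerProductSpace Topology

namespace Pool.Agent.TH322.SQ

section
variable {E : Type} [NormedAddCommGroup E] [InnerProductSpace ℝ E] [FiniteDimensional ℝ E]
  [MeasurableSpace E] [BorelSpace E]

theorem chord (u v : E) (hu : ‖u‖ = 1) (hv : ‖v‖ = 1) : ‖u - v‖ = √(2 - 2 * inner ℝ u v) := by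
  have h := norm_sub_sq_real u v
  rw [hu, hv] at h
  rw [← Real.sqrt_sq (norm_nonneg (u - v)), h]
  congr 1
  ring

theorem inner_bd (u v : E) (hu : ‖u‖ = 1) (hv : ‖v‖ = 1) :
    -1 ≤ (inner ℝ u v : ℝ) ∧ (inner ℝ u v : ℝ) ≤ 1 := by
  have h := abs_real_inner_le_norm u v
  rw [hu, hv, one_mul] at h
  exact abs_le.1 h

theorem prob_le (u v : E) (hu : ‖u‖ = 1) (hv : ‖v‖ = 1) :
    (stdGaussian E) {a | inner ℝ u a * inner ℝ v a < 0} ≤ ENNReal.ofReal (‖u - v‖ / 2) := by
  by_cases h1 : v = u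
  · subst h1
    have : {a : E | (inner ℝ v a : ℝ) * inner ℝ v a < 0} = ∅ := by
      ext a
      simp only [Set.mem_ofPred_eq, Set.mem_empty_iff_false, iff_false, not_lt]
      exact mul_self_nonneg _
    rw [this, measure_empty]
    exact zero_le
  · by_cases h2 : v = -u
    · subst h2
      rw [sub_neg_eq_add, ← two_smul ℝ u, norm_smul, hu]
      norm_num
      exact prob_le_one
    · rw [prob_sign u v hu hv h1 h2, chord u v hu hv]
      refine ENNReal.ofReal_le_ofReal ?_
      have h3 := arccos_le' (inner ℝ u v) (inner_bd u v hu hv).1 (inner_bd u v hu hv).2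
      rw [div_le_iff₀ Real.pi_pos]
      linarith

theorem prob_ge (u v : E) (hu : ‖u‖ = 1) (hv : ‖v‖ = 1) (h2 : v ≠ -u) :
    ENNReal.ofReal (‖u - v‖ / Real.pi) ≤ (stdGaussian E) {a | inner ℝ u a * inner ℝ v a < 0} := by
  by_cases h1 : v = u
  · subst h1
    simp
  · rw [prob_sign u v hu hv h1 h2, chord u v hu hv]
    refine ENNReal.ofReal_le_ofReal ?_
    exact div_le_div_of_nonneg_right
      (arccos_ge (inner ℝ u v) (inner_bd u v hu hv).1 (inner_bd u v hu hv).2) Real.pi_pos.le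

/-- vectors with nonnegative inner product -/
theorem prob_le' (u v : E) (hu : u ≠ 0) (hv : v ≠ 0) (h : 0 ≤ (inner ℝ u v : ℝ)) :
    (stdGaussian E) {a | inner ℝ u a * inner ℝ v a < 0}
      ≤ ENNReal.ofReal √(‖u - v‖ ^ 2 / (2 * (‖u‖ ^ 2 + ‖v‖ ^ 2))) := by
  have hu0 : 0 < ‖u‖ := norm_pos_iff.2 hu
  have hv0 : 0 < ‖v‖ := norm_pos_iff.2 hv
  set u' := ‖u‖⁻¹ • u with hu'
  set v' := ‖v‖⁻¹ • v with hv'
  have h1 : ‖u'‖ = 1 := by
    rw [hu', norm_smul, norm_inv, norm_norm, inv_mul_cancel₀ hu0.ne']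
  have h2 : ‖v'‖ = 1 := by
    rw [hv', norm_smul, norm_inv, norm_norm, inv_mul_cancel₀ hv0.ne']
  have e : {a : E | (inner ℝ u a : ℝ) * inner ℝ v a < 0} = {a | inner ℝ u' a * inner ℝ v' a < 0} := by
    ext a
    change (inner ℝ u a : ℝ) * inner ℝ v a < 0 ↔ inner ℝ u' a * inner ℝ v' a < 0
    rw [hu', hv', real_inner_smul_left, real_inner_smul_left]
    have h3 : ‖u‖⁻¹ * inner ℝ u a * (‖v‖⁻¹ * inner ℝ v a)
        = (‖u‖⁻¹ * ‖v‖⁻¹) * (inner ℝ u a * inner ℝ v a) := by ring
    rw [h3]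
    have h4 : 0 < ‖u‖⁻¹ * ‖v‖⁻¹ := by positivity
    constructor
    · intro h5
      exact mul_neg_of_pos_of_neg h4 h5
    · intro h5
      by_contra hc
      have := mul_nonneg h4.le (not_lt.1 hc)
      linarith
  rw [e]
  refine (prob_le u' v' h1 h2).trans (ENNReal.ofReal_le_ofReal ?_)
  refine Real.le_sqrt_of_sq_le ?_
  have h3 := norm_sub_sq_real u' v'
  rw [h1, h2, hu', hv', real_inner_smul_left, real_inner_smul_right] at h3
  rw [← hu', ← hv'] at h3
  rw [div_pow]
  rw [h3, norm_sub_sq_real u v]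
  set A := ‖u‖
  set B := ‖v‖
  set p : ℝ := inner ℝ u v
  rw [div_le_div_iff₀ (by norm_num) (by positivity)]
  have h5 : (1 ^ 2 - 2 * (A⁻¹ * (B⁻¹ * p)) + 1 ^ 2) * (2 * (A ^ 2 + B ^ 2))
      = 4 * (A ^ 2 + B ^ 2) - 4 * p * ((A ^ 2 + B ^ 2) / (A * B)) := by
    field_simp
    ring
  rw [h5]
  have h6 : 2 ≤ (A ^ 2 + B ^ 2) / (A * B) := by
    rw [le_div_iff₀ (by positivity)]
    nlinarith [sq_nonneg (A - B)]
  nlinarith [mul_le_mul_of_nonneg_left h6 h]

end

/-- the value of the random combination -/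
noncomputable def val {n : ℕ} (c w : Fin n → ℝ) : ℝ := ∑ i, c i * w i ^ 2

theorem val_meas {n : ℕ} (w : Fin n → ℝ) : Measurable fun z : (Fin n → ℝ) × (Fin n → ℝ) =>
    val (fun i => z.2 i / z.1 i) w := by
  unfold val
  refine Finset.measurable_sum _ fun i _ => ?_
  exact (((measurable_pi_apply i).comp measurable_snd).div
    ((measurable_pi_apply i).comp measurable_fst)).mul_const _

/-- the numerators only -/
theorem slice {n : ℕ} (w w' h : Fin n → ℝ) (hh : ∀ k, h k ≠ 0) (hw : ∃ k, w k ≠ 0)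
    (hw' : ∃ k, w' k ≠ 0) :
    (H n) {g | val (fun i => g i / h i) w * val (fun i => g i / h i) w' < 0}
      ≤ ENNReal.ofReal √((∑ i, (w i ^ 2 - w' i ^ 2) ^ 2 / (h i) ^ 2) /
        (∑ i, (w i ^ 2 + w' i ^ 2) ^ 2 / (h i) ^ 2)) := by
  set u : EuclideanSpace ℝ (Fin n) := WithLp.toLp 2 fun i => w i ^ 2 / h i with hu
  set v : EuclideanSpace ℝ (Fin n) := WithLp.toLp 2 fun i => w' i ^ 2 / h i with hv
  have hin : ∀ (w : Fin n → ℝ) (g : Fin n → ℝ), (inner ℝ (WithLp.toLp 2 fun i => w i ^ 2 / h i :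
      EuclideanSpace ℝ (Fin n)) (WithLp.toLp 2 g) : ℝ) = val (fun i => g i / h i) w := by
    intro w g
    rw [PiLp.inner_apply, val]
    refine Finset.sum_congr rfl fun i _ => ?_
    simp only [RCLike.inner_apply, conj_trivial]
    ring
  have hne : ∀ w : Fin n → ℝ, (∃ k, w k ≠ 0) → (WithLp.toLp 2 fun i => w i ^ 2 / h i :
      EuclideanSpace ℝ (Fin n)) ≠ 0 := by
    rintro w ⟨k, hk⟩ h0
    have h1 := congrArg (fun z : EuclideanSpace ℝ (Fin n) => z k) h0
    have h2 : w k ^ 2 / h k = 0 := h1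
    have h3 : w k ^ 2 / h k ≠ 0 := div_ne_zero (pow_ne_zero 2 hk) (hh k)
    exact h3 h2
  have hu0 : u ≠ 0 := hne w hw
  have hv0 : v ≠ 0 := hne w' hw'
  have hpos : 0 ≤ (inner ℝ u v : ℝ) := by
    rw [hu, hv, PiLp.inner_apply]
    refine Finset.sum_nonneg fun i _ => ?_
    simp only [RCLike.inner_apply, conj_trivial]
    have : w' i ^ 2 / h i * (w i ^ 2 / h i) = (w' i * w i / h i) ^ 2 := by
      field_simp
    rw [this]
    exact sq_nonneg _
  have hS : MeasurableSet {a : EuclideanSpace ℝ (Fin n) | (inner ℝ u a : ℝ) * inner ℝ v a < 0} :=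
    measurableSet_lt (by fun_prop) measurable_const
  have e1 : (H n) {g | val (fun i => g i / h i) w * val (fun i => g i / h i) w' < 0}
      = (stdGaussian (EuclideanSpace ℝ (Fin n))) {a | (inner ℝ u a : ℝ) * inner ℝ v a < 0} := by
    rw [← map_pi_eq_stdGaussian, Measure.map_apply (by fun_prop) hS, H]
    congr 1
    ext g
    change _ ↔ (inner ℝ u (WithLp.toLp 2 g) : ℝ) * inner ℝ v (WithLp.toLp 2 g) < 0
    rw [hu, hv, hin, hin]
    rfl
  rw [e1]
  refine (prob_le' u v hu0 hv0 hpos).trans (ENNReal.ofReal_le_ofReal (Real.sqrt_le_sqrt ?_))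
  have n1 : ‖u - v‖ ^ 2 = ∑ i, (w i ^ 2 - w' i ^ 2) ^ 2 / (h i) ^ 2 := by
    rw [EuclideanSpace.real_norm_sq_eq]
    refine Finset.sum_congr rfl fun i _ => ?_
    have : (u - v) i = (w i ^ 2 - w' i ^ 2) / h i := by
      show w i ^ 2 / h i - w' i ^ 2 / h i = _
      ring
    rw [this, div_pow]
  have n2 : ∑ i, (w i ^ 2 + w' i ^ 2) ^ 2 / (h i) ^ 2 ≤ 2 * (‖u‖ ^ 2 + ‖v‖ ^ 2) := by
    rw [EuclideanSpace.real_norm_sq_eq, EuclideanSpace.real_norm_sq_eq, ← Finset.sum_add_distrib,
      Finset.mul_sum]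
    refine Finset.sum_le_sum fun i _ => ?_
    have a1 : u i = w i ^ 2 / h i := rfl
    have a2 : v i = w' i ^ 2 / h i := rfl
    rw [a1, a2, div_pow, div_pow, ← add_div, ← mul_div_assoc]
    refine div_le_div_of_nonneg_right ?_ (sq_nonneg _)
    nlinarith [sq_nonneg (w i ^ 2 - w' i ^ 2)]
  rw [n1]
  refine div_le_div_of_nonneg_left (Finset.sum_nonneg fun i _ => by positivity) ?_ n2
  obtain ⟨k, hk⟩ := hw
  refine lt_of_lt_of_le ?_ (Finset.single_le_sum (f := fun i => (w i ^ 2 + w' i ^ 2) ^ 2 / (h i) ^ 2)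
    (fun j _ => by positivity) (Finset.mem_univ k))
  have := hh k
  positivity

/-- two unit vectors -/
theorem unit_le {n : ℕ} (w w' : Fin (n + 1) → ℝ) (hw : ∑ i, w i ^ 2 = 1) (hw' : ∑ i, w' i ^ 2 = 1) :
    ((H (n + 1)).prod (H (n + 1))) {z | val (fun i => z.2 i / z.1 i) w *
        val (fun i => z.2 i / z.1 i) w' < 0}
      ≤ ENNReal.ofReal (9 / 2 * √(∑ i, (w i - w' i) ^ 2)) := by
  set δ := √(∑ i, (w i - w' i) ^ 2) with hδ
  have hδ2 : δ ^ 2 = ∑ i, (w i - w' i) ^ 2 := Real.sq_sqrt (Finset.sum_nonneg fun i _ => sq_nonneg _)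
  rcases (Real.sqrt_nonneg (∑ i, (w i - w' i) ^ 2)).eq_or_lt with h0 | h0
  · have h1 : ∑ i, (w i - w' i) ^ 2 = 0 := by
      rw [← hδ2, hδ, ← h0]
      norm_num
    have h2 : w = w' := by
      funext i
      have := (Finset.sum_eq_zero_iff_of_nonneg (fun i _ => sq_nonneg (w i - w' i))).1 h1 i
        (Finset.mem_univ i)
      have h3 := pow_eq_zero_iff two_ne_zero |>.1 this
      linarith
    subst h2
    have : {z : (Fin (n + 1) → ℝ) × (Fin (n + 1) → ℝ) | val (fun i => z.2 i / z.1 i) w *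
        val (fun i => z.2 i / z.1 i) w < 0} = ∅ := by
      ext z
      simp only [Set.mem_ofPred_eq, Set.mem_empty_iff_false, iff_false, not_lt]
      exact mul_self_nonneg _
    rw [this, measure_empty]
    exact zero_le
  · have hne : ∀ w : Fin (n + 1) → ℝ, ∑ i, w i ^ 2 = 1 → ∃ k, w k ≠ 0 := by
      intro w hw
      by_contra hc
      push Not at hc
      rw [Finset.sum_eq_zero (fun i _ => by rw [hc i]; ring)] at hw
      norm_num at hw
    have hm : MeasurableSet {z : (Fin (n + 1) → ℝ) × (Fin (n + 1) → ℝ) |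
        val (fun i => z.2 i / z.1 i) w * val (fun i => z.2 i / z.1 i) w' < 0} :=
      measurableSet_lt ((val_meas w).mul (val_meas w')) measurable_const
    have hnz : ∀ᵐ h : Fin (n + 1) → ℝ ∂(H (n + 1)), ∀ k, h k ≠ 0 := by
      rw [ae_all_iff]
      intro k
      have := gauss_noatoms
      have h4 : ∀ᵐ x : ℝ ∂(gaussianReal 0 1), x ≠ 0 := by
        rw [ae_iff]
        simp
      exact (Measure.quasiMeasurePreserving_eval (μ := fun _ : Fin (n + 1) => gaussianReal 0 1) k).ae h4
    set Q : Fin (n + 1) → ℝ := fun i => w i ^ 2 + w' i ^ 2 with hQ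
    have hQ0 : ∀ k, 0 ≤ Q k := fun k => by positivity
    have hQs : ∑ k, Q k = 2 := by
      rw [hQ, Finset.sum_add_distrib, hw, hw']
      norm_num
    set κ : ℝ := 9 / 2 * δ with hκ
    have hκ0 : 0 < κ := by positivity
    set Wd : (Fin (n + 1) → ℝ) → ℝ := fun h => ∑ i, Q i ^ 2 / (h i) ^ 2 with hWd
    set D : (Fin (n + 1) → ℝ) → ℝ := fun h => ∑ i, (w i ^ 2 - w' i ^ 2) ^ 2 / (h i) ^ 2 with hD
    have hWd0 : ∀ h, 0 ≤ Wd h := fun h => Finset.sum_nonneg fun i _ => by positivity
    have hD0 : ∀ h, 0 ≤ D h := fun h => Finset.sum_nonneg fun i _ => by positivity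
    have hZ : ∫⁻ h, ENNReal.ofReal (D h / Wd h) ∂(H (n + 1)) ≤ ENNReal.ofReal (20 * δ ^ 2) := by
      have e1 : ∀ h, ENNReal.ofReal (D h / Wd h) = ∑ i, ENNReal.ofReal ((w i ^ 2 - w' i ^ 2) ^ 2) *
          ENNReal.ofReal (((h i) ^ 2)⁻¹ / Wd h) := by
        intro h
        rw [hD]
        simp only
        rw [Finset.sum_div, ENNReal.ofReal_sum_of_nonneg
          (fun i _ => div_nonneg (by positivity) (hWd0 h))]
        refine Finset.sum_congr rfl fun i _ => ?_
        rw [← ENNReal.ofReal_mul (by positivity)]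
        congr 1
        ring
      have hmeas : ∀ i, Measurable fun h : Fin (n + 1) → ℝ => ENNReal.ofReal (((h i) ^ 2)⁻¹ / Wd h) := by
        intro i
        refine ENNReal.measurable_ofReal.comp ?_
        have h1 : Measurable Wd := by
          refine Finset.measurable_sum _ fun i _ => ?_
          exact ((measurable_pi_apply i).pow_const 2).const_div _
        exact (((measurable_pi_apply i).pow_const 2).inv).div h1
      simp_rw [e1]
      rw [lintegral_finsetSum _ fun i _ => (hmeas i).const_mul _, 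
        hδ2, Finset.mul_sum, ENNReal.ofReal_sum_of_nonneg (fun i _ => by positivity)]
      refine Finset.sum_le_sum fun i _ => ?_
      rw [lintegral_const_mul _ (hmeas i)]
      rcases (hQ0 i).eq_or_lt with hq | hq
      · have h1 : w i ^ 2 - w' i ^ 2 = 0 := by
          have h2 : w i ^ 2 + w' i ^ 2 = 0 := hq.symm
          nlinarith [sq_nonneg (w i), sq_nonneg (w' i)]
        rw [h1]
        simp
      · have h1 := ratio Q hQ0 (by rw [hQs]; norm_num) i hq
        rw [hQs] at h1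
        refine (mul_le_mul_right h1 _).trans ?_
        rw [← ENNReal.ofReal_mul (by positivity)]
        refine ENNReal.ofReal_le_ofReal ?_
        rw [← mul_div_assoc, div_le_iff₀ (by positivity)]
        have h2 : Q i = w i ^ 2 + w' i ^ 2 := rfl
        rw [h2]
        have h3 : (w i ^ 2 - w' i ^ 2) ^ 2 = (w i - w' i) ^ 2 * (w i + w' i) ^ 2 := by ring
        rw [h3]
        have h4 : (w i + w' i) ^ 2 ≤ 2 * (w i ^ 2 + w' i ^ 2) := by nlinarith [sq_nonneg (w i - w' i)]
        nlinarith [mul_le_mul_of_nonneg_left h4 (sq_nonneg (w i - w' i))]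
    have hDm : Measurable fun h : Fin (n + 1) → ℝ => ENNReal.ofReal (D h / Wd h) := by
      refine ENNReal.measurable_ofReal.comp (Measurable.div ?_ ?_)
      · refine Finset.measurable_sum _ fun i _ => ?_
        exact ((measurable_pi_apply i).pow_const 2).const_div _
      · refine Finset.measurable_sum _ fun i _ => ?_
        exact ((measurable_pi_apply i).pow_const 2).const_div _
    rw [Measure.prod_apply hm]
    calc _ ≤ ∫⁻ h, (ENNReal.ofReal (D h / Wd h) * ENNReal.ofReal (1 / (2 * κ))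
          + ENNReal.ofReal (κ / 2)) ∂(H (n + 1)) := by
          refine lintegral_mono_ae ?_
          filter_upwards [hnz] with h hh
          refine (slice w w' h hh (hne w hw) (hne w' hw')).trans ?_
          rw [← ENNReal.ofReal_mul (div_nonneg (hD0 h) (hWd0 h)),
            ← ENNReal.ofReal_add (by
              have := div_nonneg (hD0 h) (hWd0 h)
              positivity) (by positivity)]
          refine ENNReal.ofReal_le_ofReal ?_
          have hz := div_nonneg (hD0 h) (hWd0 h)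
          set Z := D h / Wd h with hZd
          have hs := Real.sq_sqrt hz
          have hs0 := Real.sqrt_nonneg Z
          show √Z ≤ _
          have h5 : Z * (1 / (2 * κ)) + κ / 2 - √Z = (√Z - κ) ^ 2 / (2 * κ) := by
            field_simp
            nlinarith
          have h6 : 0 ≤ (√Z - κ) ^ 2 / (2 * κ) := by positivity
          linarith
      _ = (∫⁻ h, ENNReal.ofReal (D h / Wd h) ∂(H (n + 1))) * ENNReal.ofReal (1 / (2 * κ))
          + ENNReal.ofReal (κ / 2) := by
          rw [lintegral_add_right _ measurable_const, lintegral_mul_const _ hDm, lintegral_const,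
            measure_univ, mul_one]
      _ ≤ ENNReal.ofReal (20 * δ ^ 2) * ENNReal.ofReal (1 / (2 * κ)) + ENNReal.ofReal (κ / 2) := by
          gcongr
      _ ≤ ENNReal.ofReal κ := by
          rw [← ENNReal.ofReal_mul (by positivity), ← ENNReal.ofReal_add (by positivity)
            (by positivity)]
          refine ENNReal.ofReal_le_ofReal ?_
          rw [hκ]
          have : 20 * δ ^ 2 * (1 / (2 * (9 / 2 * δ))) = 20 / 9 * δ := by
            field_simp
          rw [this]
          linarith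

end Pool.Agent.TH322.SQ
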