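import Pool.Agent.TH322.SQ.Tail

/-!
# The expected ratio
-/

set_option autoImplicit false

open MeasureTheory ProbabilityTheory Polynomial Filter
open scoped ENNReal NNReal RealInnerProductSpace Topology

namespace Pool.Agent.TH322.SQ

/-- the product law of the denominators -/
noncomputable def H (n : ℕ) : Measure (Fin n → ℝ) := Measure.pi fun _ => gaussianReal 0 1

instance (n : ℕ) : IsProbabilityMeasure (H n) := by unfold H; infer_instance

/-- one term -/
theorem box {n : ℕ} (Q : Fin (n + 1) → ℝ) (hQ : ∀ k, 0 ≤ Q k) (i : Fin (n + 1)) (t : ℝ) (ht : 0 < t)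
    (hi : 0 < Q i) :
    ∫⁻ h, {h : Fin (n + 1) → ℝ | ∀ k, t * Q k < |h k|}.indicator
      (fun h => ENNReal.ofReal (((h i) ^ 2)⁻¹)) h ∂(H (n + 1))
      ≤ ENNReal.ofReal (Real.exp (-(t * (∑ k, Q k) / 10)) / (t * Q i)) := by
  have hmp := measurePreserving_piFinSuccAbove (fun _ : Fin (n + 1) => gaussianReal 0 1) i
  have hsetm : MeasurableSet {h : Fin (n + 1) → ℝ | ∀ k, t * Q k < |h k|} := by
    have : {h : Fin (n + 1) → ℝ | ∀ k, t * Q k < |h k|} = ⋂ k, {h | t * Q k < |h k|} := by
      ext h
      simp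
    rw [this]
    refine MeasurableSet.iInter fun k => ?_
    have : Measurable fun h : Fin (n + 1) → ℝ => |h k| := by fun_prop
    exact measurableSet_lt measurable_const this
  set F : ℝ × (Fin n → ℝ) → ℝ≥0∞ := fun z =>
    {y : ℝ | t * Q i < |y|}.indicator (fun y => ENNReal.ofReal ((y ^ 2)⁻¹)) z.1
      * {w : Fin n → ℝ | ∀ k, t * Q (i.succAbove k) < |w k|}.indicator (fun _ => 1) z.2 with hF
  have hm1 : MeasurableSet {y : ℝ | t * Q i < |y|} := measurableSet_lt measurable_const (by fun_prop)
  have hm2 : MeasurableSet {w : Fin n → ℝ | ∀ k, t * Q (i.succAbove k) < |w k|} := by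
    have : {w : Fin n → ℝ | ∀ k, t * Q (i.succAbove k) < |w k|}
        = ⋂ k, {w | t * Q (i.succAbove k) < |w k|} := by
      ext h
      simp
    rw [this]
    refine MeasurableSet.iInter fun k => ?_
    have : Measurable fun h : Fin n → ℝ => |h k| := by fun_prop
    exact measurableSet_lt measurable_const this
  have hmq : Measurable fun y : ℝ => ENNReal.ofReal ((y ^ 2)⁻¹) := by fun_prop
  have hf1 : Measurable fun y : ℝ => {y : ℝ | t * Q i < |y|}.indicator
      (fun y => ENNReal.ofReal ((y ^ 2)⁻¹)) y := hmq.indicator hm1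
  have hf2 : Measurable fun w : Fin n → ℝ => {w : Fin n → ℝ | ∀ k, t * Q (i.succAbove k)
      < |w k|}.indicator (fun _ => (1 : ℝ≥0∞)) w := measurable_const.indicator hm2
  have hFm : Measurable F := (hf1.comp measurable_fst).mul (hf2.comp measurable_snd)
  have e1 : ∫⁻ h, {h : Fin (n + 1) → ℝ | ∀ k, t * Q k < |h k|}.indicator
      (fun h => ENNReal.ofReal (((h i) ^ 2)⁻¹)) h ∂(H (n + 1))
      = ∫⁻ h, F (MeasurableEquiv.piFinSuccAbove (fun _ => ℝ) i h) ∂(H (n + 1)) := by
    refine lintegral_congr fun h => ?_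
    have h1 : MeasurableEquiv.piFinSuccAbove (fun _ => ℝ) i h = (h i, fun k => h (i.succAbove k)) := rfl
    rw [h1, hF]
    simp only
    have h2 : (∀ k, t * Q k < |h k|) ↔ (t * Q i < |h i| ∧
        ∀ k, t * Q (i.succAbove k) < |h (i.succAbove k)|) := by
      exact Fin.forall_iff_succAbove i
    by_cases ha : t * Q i < |h i|
    · by_cases hb : ∀ k, t * Q (i.succAbove k) < |h (i.succAbove k)|
      · rw [Set.indicator_of_mem (show h ∈ {h : Fin (n + 1) → ℝ | ∀ k, t * Q k < |h k|} from
          h2.2 ⟨ha, hb⟩), Set.indicator_of_mem (show h i ∈ {y : ℝ | t * Q i < |y|} from ha),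
          Set.indicator_of_mem (show (fun k => h (i.succAbove k)) ∈
            {w : Fin n → ℝ | ∀ k, t * Q (i.succAbove k) < |w k|} from hb), mul_one]
      · rw [Set.indicator_of_notMem (show h ∉ {h : Fin (n + 1) → ℝ | ∀ k, t * Q k < |h k|} from
          fun hc => hb (h2.1 hc).2),
          Set.indicator_of_notMem (show (fun k => h (i.succAbove k)) ∉
            {w : Fin n → ℝ | ∀ k, t * Q (i.succAbove k) < |w k|} from hb), mul_zero]
    · rw [Set.indicator_of_notMem (show h ∉ {h : Fin (n + 1) → ℝ | ∀ k, t * Q k < |h k|} from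
          fun hc => ha (h2.1 hc).1),
          Set.indicator_of_notMem (show h i ∉ {y : ℝ | t * Q i < |y|} from ha), zero_mul]
  have e2 : ∫⁻ h, F (MeasurableEquiv.piFinSuccAbove (fun _ => ℝ) i h) ∂(H (n + 1))
      = ∫⁻ z, F z ∂((gaussianReal 0 1).prod (H n)) := by
    unfold H
    exact hmp.lintegral_comp hFm
  have e3 : ∫⁻ z, F z ∂((gaussianReal 0 1).prod (H n))
      = (∫⁻ y, {y : ℝ | t * Q i < |y|}.indicator (fun y => ENNReal.ofReal ((y ^ 2)⁻¹)) y
          ∂(gaussianReal 0 1)) * (H n) {w : Fin n → ℝ | ∀ k, t * Q (i.succAbove k) < |w k|} := by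
    rw [hF, lintegral_prod_mul hf1.aemeasurable hf2.aemeasurable, lintegral_indicator hm2,
      setLIntegral_const, one_mul]
  have e4 : (H n) {w : Fin n → ℝ | ∀ k, t * Q (i.succAbove k) < |w k|}
      ≤ ENNReal.ofReal (Real.exp (-(t * (∑ k, Q (i.succAbove k)) / 10))) := by
    have h1 : {w : Fin n → ℝ | ∀ k, t * Q (i.succAbove k) < |w k|}
        = Set.univ.pi fun k => {y : ℝ | t * Q (i.succAbove k) < |y|} := by
      ext w
      simp
    rw [h1, H, Measure.pi_pi]
    calc ∏ k, (gaussianReal 0 1) {y : ℝ | t * Q (i.succAbove k) < |y|}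
        ≤ ∏ k, ENNReal.ofReal (Real.exp (-(t * Q (i.succAbove k) / 10))) :=
          Finset.prod_le_prod' fun k _ => tail _ (mul_nonneg ht.le (hQ _))
      _ = ENNReal.ofReal (∏ k, Real.exp (-(t * Q (i.succAbove k) / 10))) :=
          (ENNReal.ofReal_prod_of_nonneg fun k _ => (Real.exp_pos _).le).symm
      _ = _ := by
          rw [← Real.exp_sum]
          congr 2
          rw [Finset.sum_neg_distrib, Finset.mul_sum, Finset.sum_div]
  rw [e1, e2, e3]
  calc _ ≤ ENNReal.ofReal (Real.exp (-(t * Q i / 10)) / (t * Q i))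
        * ENNReal.ofReal (Real.exp (-(t * (∑ k, Q (i.succAbove k)) / 10))) :=
        mul_le_mul' (tail2 _ (mul_pos ht hi)) e4
    _ = _ := by
        rw [← ENNReal.ofReal_mul (div_nonneg (Real.exp_pos _).le (mul_pos ht hi).le)]
        congr 1
        rw [div_mul_eq_mul_div, ← Real.exp_add, Fin.sum_univ_succAbove _ i]
        congr 2
        ring

/-- the expected ratio -/
theorem ratio {n : ℕ} (Q : Fin (n + 1) → ℝ) (hQ : ∀ k, 0 ≤ Q k) (hP : 0 < ∑ k, Q k)
    (i : Fin (n + 1)) (hi : 0 < Q i) :
    ∫⁻ h, ENNReal.ofReal (((h i) ^ 2)⁻¹ / ∑ k, Q k ^ 2 / (h k) ^ 2) ∂(H (n + 1))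
      ≤ ENNReal.ofReal (20 / (Q i * ∑ k, Q k)) := by
  set P := ∑ k, Q k with hPdef
  set S : ℝ → Set (Fin (n + 1) → ℝ) := fun t => {h : Fin (n + 1) → ℝ | ∀ k, t * Q k < |h k|} with hS
  have hne : ∀ᵐ h : Fin (n + 1) → ℝ ∂(H (n + 1)), ∀ k, h k ≠ 0 := by
    rw [ae_all_iff]
    intro k
    have := gauss_noatoms
    have h4 : ∀ᵐ x : ℝ ∂(gaussianReal 0 1), x ≠ 0 := by
      rw [ae_iff]
      simp
    exact (Measure.quasiMeasurePreserving_eval (μ := fun _ : Fin (n + 1) => gaussianReal 0 1) k).ae h4
  -- the pointwise bound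
  have hpt : ∀ h : Fin (n + 1) → ℝ, (∀ k, h k ≠ 0) →
      ENNReal.ofReal (((h i) ^ 2)⁻¹ / ∑ k, Q k ^ 2 / (h k) ^ 2)
      ≤ ∫⁻ t in Set.Ioi (0 : ℝ), ENNReal.ofReal (2 * t) *
        (S t).indicator (fun h => ENNReal.ofReal (((h i) ^ 2)⁻¹)) h := by
    intro h hh
    set W := ∑ k, Q k ^ 2 / (h k) ^ 2 with hW
    have hWk : ∀ k, Q k ^ 2 / (h k) ^ 2 ≤ W := fun k =>
      Finset.single_le_sum (f := fun k => Q k ^ 2 / (h k) ^ 2) (fun j _ => by positivity)
        (Finset.mem_univ k)
    have hW0 : 0 < W := by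
      refine lt_of_lt_of_le ?_ (hWk i)
      have := hh i
      positivity
    set T := √(W⁻¹) with hT
    have hT0 : 0 < T := Real.sqrt_pos.2 (by positivity)
    have hT2 : T ^ 2 = W⁻¹ := Real.sq_sqrt (by positivity)
    calc ENNReal.ofReal (((h i) ^ 2)⁻¹ / W)
        = ENNReal.ofReal (T ^ 2) * ENNReal.ofReal (((h i) ^ 2)⁻¹) := by
          rw [← ENNReal.ofReal_mul (by positivity), hT2]
          congr 1
          rw [div_eq_mul_inv, mul_comm]
      _ = (∫⁻ t in Set.Ioo (0 : ℝ) T, ENNReal.ofReal (2 * t)) * ENNReal.ofReal (((h i) ^ 2)⁻¹) := by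
          congr 1
          have hint : IntegrableOn (fun t : ℝ => 2 * t) (Set.Ioo 0 T) :=
            ((continuous_const.mul continuous_id).integrableOn_Icc (a := 0) (b := T)).mono_set
              Set.Ioo_subset_Icc_self
          rw [← ofReal_integral_eq_lintegral_ofReal hint
            ((ae_restrict_iff' measurableSet_Ioo).2 (Eventually.of_forall fun t ht => by
              have := ht.1
              show (0 : ℝ) ≤ 2 * t
              linarith))]
          congr 1
          rw [← integral_Ioc_eq_integral_Ioo, ← intervalIntegral.integral_of_le hT0.le,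
            intervalIntegral.integral_const_mul, integral_id]
          ring
      _ = ∫⁻ t in Set.Ioo (0 : ℝ) T, ENNReal.ofReal (2 * t) * ENNReal.ofReal (((h i) ^ 2)⁻¹) := by
          rw [lintegral_mul_const _ (by fun_prop)]
      _ = ∫⁻ t in Set.Ioo (0 : ℝ) T, ENNReal.ofReal (2 * t) *
            (S t).indicator (fun h => ENNReal.ofReal (((h i) ^ 2)⁻¹)) h := by
          refine setLIntegral_congr_fun measurableSet_Ioo fun t ht => ?_
          have hmem : h ∈ S t := by
            intro k
            have h1 : t ^ 2 * (Q k ^ 2 / (h k) ^ 2) < 1 := by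
              have h2 : t ^ 2 < T ^ 2 := by
                have := ht.1
                have := ht.2
                nlinarith
              calc t ^ 2 * (Q k ^ 2 / (h k) ^ 2) ≤ t ^ 2 * W :=
                    mul_le_mul_of_nonneg_left (hWk k) (sq_nonneg _)
                _ < T ^ 2 * W := mul_lt_mul_of_pos_right h2 hW0
                _ = 1 := by rw [hT2, inv_mul_cancel₀ hW0.ne']
            have h3 : 0 < (h k) ^ 2 := by
              have := hh k
              positivity
            rw [← mul_div_assoc, div_lt_one h3, ← mul_pow] at h1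
            exact lt_of_pow_lt_pow_left₀ 2 (abs_nonneg _) (by rwa [sq_abs])
          rw [Set.indicator_of_mem hmem]
      _ ≤ _ := lintegral_mono_set Set.Ioo_subset_Ioi_self
  calc ∫⁻ h, ENNReal.ofReal (((h i) ^ 2)⁻¹ / ∑ k, Q k ^ 2 / (h k) ^ 2) ∂(H (n + 1))
      ≤ ∫⁻ h, (∫⁻ t in Set.Ioi (0 : ℝ), ENNReal.ofReal (2 * t) *
        (S t).indicator (fun h => ENNReal.ofReal (((h i) ^ 2)⁻¹)) h) ∂(H (n + 1)) := by
        refine lintegral_mono_ae ?_
        filter_upwards [hne] with h hh
        exact hpt h hh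
    _ = ∫⁻ t in Set.Ioi (0 : ℝ), (∫⁻ h, ENNReal.ofReal (2 * t) *
        (S t).indicator (fun h => ENNReal.ofReal (((h i) ^ 2)⁻¹)) h ∂(H (n + 1))) := by
        refine lintegral_lintegral_swap ?_
        have hSm : MeasurableSet {p : (Fin (n + 1) → ℝ) × ℝ | p.1 ∈ S p.2} := by
          have : {p : (Fin (n + 1) → ℝ) × ℝ | p.1 ∈ S p.2} = ⋂ k, {p | p.2 * Q k < |p.1 k|} := by
            ext p
            simp [hS]
          rw [this]
          refine MeasurableSet.iInter fun k => ?_
          have h1 : Measurable fun p : (Fin (n + 1) → ℝ) × ℝ => |p.1 k| := by fun_prop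
          have h2 : Measurable fun p : (Fin (n + 1) → ℝ) × ℝ => p.2 * Q k := by fun_prop
          exact measurableSet_lt h2 h1
        have h1 : Measurable fun p : (Fin (n + 1) → ℝ) × ℝ => ENNReal.ofReal (((p.1 i) ^ 2)⁻¹) := by
          fun_prop
        have h2 : Measurable fun p : (Fin (n + 1) → ℝ) × ℝ => ENNReal.ofReal (2 * p.2) := by fun_prop
        have h3 := h2.mul (h1.indicator hSm)
        have e : (Function.uncurry fun (h : Fin (n + 1) → ℝ) (t : ℝ) => ENNReal.ofReal (2 * t) *
            (S t).indicator (fun h => ENNReal.ofReal (((h i) ^ 2)⁻¹)) h)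
            = (fun p => ENNReal.ofReal (2 * p.2)) *
              ({p | p.1 ∈ S p.2}.indicator fun p => ENNReal.ofReal (((p.1 i) ^ 2)⁻¹)) := by
          funext p
          rfl
        rw [e]
        exact h3.aemeasurable
    _ ≤ ∫⁻ t in Set.Ioi (0 : ℝ), ENNReal.ofReal (2 / Q i * Real.exp (-(P / 10) * t)) := by
        refine setLIntegral_mono' measurableSet_Ioi fun t ht => ?_
        have ht0 : 0 < t := ht
        have hmi : Measurable fun h : Fin (n + 1) → ℝ =>
            (S t).indicator (fun h => ENNReal.ofReal (((h i) ^ 2)⁻¹)) h := by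
          have hSm : MeasurableSet (S t) := by
            have : S t = ⋂ k, {h | t * Q k < |h k|} := by
              ext h
              simp [hS]
            rw [this]
            refine MeasurableSet.iInter fun k => ?_
            have h1 : Measurable fun h : Fin (n + 1) → ℝ => |h k| := by fun_prop
            exact measurableSet_lt measurable_const h1
          have h1 : Measurable fun h : Fin (n + 1) → ℝ => ENNReal.ofReal (((h i) ^ 2)⁻¹) := by
            fun_prop
          exact h1.indicator hSm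
        rw [lintegral_const_mul _ hmi]
        calc _ ≤ ENNReal.ofReal (2 * t) * ENNReal.ofReal (Real.exp (-(t * P / 10)) / (t * Q i)) :=
              mul_le_mul_right (box Q hQ i t ht0 hi) _
          _ = _ := by
              rw [← ENNReal.ofReal_mul (by positivity)]
              congr 1
              rw [show -(P / 10) * t = -(t * P / 10) by ring]
              field_simp
    _ = _ := by
        have hb : 0 < P / 10 := by positivity
        have h1 : IntegrableOn (fun t : ℝ => 2 / Q i * Real.exp (-(P / 10) * t)) (Set.Ioi 0) :=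
          (integrableOn_exp_mul_Ioi (by linarith) 0).const_mul _
        rw [← ofReal_integral_eq_lintegral_ofReal h1 (Eventually.of_forall fun t => by positivity),
          integral_const_mul, integral_exp_mul_Ioi (by linarith)]
        congr 1
        simp
        field_simp
        norm_num

end Pool.Agent.TH322.SQ
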