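import Pool.Agent.TH322.SQ.Avg

/-!
# The total variation of `arctan √(P / N)`
-/

set_option autoImplicit false

open MeasureTheory ProbabilityTheory Polynomial Filter
open scoped ENNReal NNReal RealInnerProductSpace Topology

namespace Pool.Agent.TH322.SQ
open Pool.Agent.W945.Sos

theorem nu_Ioo (a b : ℝ) (hab : a ≤ b) :
    nu (Set.Ioo a b) = ENNReal.ofReal ((Real.arctan b - Real.arctan a) / Real.pi) := by
  have hm : MeasurableSet (Set.Ioo a b) := measurableSet_Ioo
  have h1 : nu (Set.Ioo a b) = ∫⁻ t, (Set.Ioo a b).indicator (fun _ => (1 : ℝ≥0∞)) t ∂nu := by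
    rw [lintegral_indicator hm, setLIntegral_const, one_mul]
  have hcont : Continuous fun t : ℝ => (Real.pi * (1 + t ^ 2))⁻¹ := by
    refine Continuous.inv₀ (by fun_prop) fun t => ?_
    positivity
  have h2 : ∫⁻ t : ℝ, (Set.Ioo a b).indicator (fun _ => (1 : ℝ≥0∞)) t
      * ENNReal.ofReal ((Real.pi * (1 + t ^ 2))⁻¹)
      = ∫⁻ t in Set.Ioo a b, ENNReal.ofReal ((Real.pi * (1 + t ^ 2))⁻¹) := by
    rw [← lintegral_indicator hm]
    refine lintegral_congr fun t => ?_
    by_cases ht : t ∈ Set.Ioo a b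
    · rw [Set.indicator_of_mem ht, Set.indicator_of_mem ht, one_mul]
    · rw [Set.indicator_of_notMem ht, Set.indicator_of_notMem ht, zero_mul]
  rw [h1, nu_lint _ (measurable_const.indicator hm), h2, ← ofReal_integral_eq_lintegral_ofReal]
  · congr 1
    rw [← integral_Ioc_eq_integral_Ioo, ← intervalIntegral.integral_of_le hab]
    have h3 : (fun t : ℝ => (Real.pi * (1 + t ^ 2))⁻¹) = fun t : ℝ => Real.pi⁻¹ * (1 + t ^ 2)⁻¹ := by
      funext t
      rw [mul_inv]
    rw [h3, intervalIntegral.integral_const_mul, integral_inv_one_add_sq]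
    field_simp
  · exact (hcont.integrableOn_Icc (a := a) (b := b)).mono_set Set.Ioo_subset_Icc_self
  · exact Eventually.of_forall fun t => by positivity

section
variable {ι κ : Type} [Fintype ι] [Fintype κ]

theorem amp_le (f : ι → ℝ[X]) (g : κ → ℝ[X]) (x y : ℝ) (hx : 0 < (sq g).eval x)
    (hy : 0 < (sq g).eval y) :
    ENNReal.ofReal (2 * |Real.arctan √((sq f).eval y / (sq g).eval y)
      - Real.arctan √((sq f).eval x / (sq g).eval x)| / Real.pi)
      ≤ nu {t | (mem f g t).eval x * (mem f g t).eval y < 0} := by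
  have key : ∀ x y : ℝ, 0 < (sq g).eval x → 0 < (sq g).eval y →
      √((sq f).eval x / (sq g).eval x) ≤ √((sq f).eval y / (sq g).eval y) →
      ENNReal.ofReal (2 * |Real.arctan √((sq f).eval y / (sq g).eval y)
      - Real.arctan √((sq f).eval x / (sq g).eval x)| / Real.pi)
      ≤ nu {t | (mem f g t).eval x * (mem f g t).eval y < 0} := by
    intro x y hx hy hab
    set a := √((sq f).eval x / (sq g).eval x) with ha
    set b := √((sq f).eval y / (sq g).eval y) with hb
    have ha0 : 0 ≤ a := Real.sqrt_nonneg _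
    have ha2 : a ^ 2 = (sq f).eval x / (sq g).eval x :=
      Real.sq_sqrt (div_nonneg (sq_nonneg' f x) hx.le)
    have hb2 : b ^ 2 = (sq f).eval y / (sq g).eval y :=
      Real.sq_sqrt (div_nonneg (sq_nonneg' f y) hy.le)
    have hmono := Real.arctan_strictMono.monotone hab
    have hsub : Set.Ioo a b ∪ Set.Ioo (-b) (-a)
        ⊆ {t | (mem f g t).eval x * (mem f g t).eval y < 0} := by
      intro t ht
      have h1 : a ^ 2 < t ^ 2 ∧ t ^ 2 < b ^ 2 := by
        rcases ht with ⟨h1, h2⟩ | ⟨h1, h2⟩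
        · constructor <;> nlinarith
        · constructor <;> nlinarith
      rw [ha2, hb2, div_lt_iff₀ hx, lt_div_iff₀ hy] at h1
      show (mem f g t).eval x * (mem f g t).eval y < 0
      rw [eval_mem, eval_mem]
      exact mul_neg_of_neg_of_pos (by linarith [h1.1]) (by linarith [h1.2])
    have hdisj : Disjoint (Set.Ioo a b) (Set.Ioo (-b) (-a)) := by
      rw [Set.disjoint_left]
      rintro t ⟨h1, _⟩ ⟨_, h2⟩
      linarith
    calc ENNReal.ofReal (2 * |Real.arctan b - Real.arctan a| / Real.pi)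
        = nu (Set.Ioo a b) + nu (Set.Ioo (-b) (-a)) := by
          rw [nu_Ioo a b hab, nu_Ioo (-b) (-a) (by linarith), Real.arctan_neg, Real.arctan_neg,
            abs_of_nonneg (by linarith), ← ENNReal.ofReal_add]
          · congr 1
            ring
          · exact div_nonneg (by linarith) Real.pi_pos.le
          · exact div_nonneg (by linarith) Real.pi_pos.le
      _ = nu (Set.Ioo a b ∪ Set.Ioo (-b) (-a)) := (measure_union hdisj measurableSet_Ioo).symm
      _ ≤ _ := measure_mono hsub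
  rcases le_total √((sq f).eval x / (sq g).eval x) √((sq f).eval y / (sq g).eval y) with h | h
  · exact key x y hx hy h
  · have h1 := key y x hy hx h
    rw [abs_sub_comm] at h1
    refine h1.trans (le_of_eq ?_)
    congr 1
    ext t
    change (mem f g t).eval y * (mem f g t).eval x < 0
        ↔ (mem f g t).eval x * (mem f g t).eval y < 0
    rw [mul_comm]

/-- the total variation of `arctan √(P / N)` -/
theorem tv_le (f : ι → ℝ[X]) (g : κ → ℝ[X]) (M : Finset ℕ) (hf : ∀ i, (f i).support ⊆ M)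
    (hg : ∀ j, (g j).support ⊆ M) (x : ℕ → ℝ) (hx : StrictMono x) (n : ℕ)
    (hN : ∀ j ≤ n, 0 < (sq g).eval (x j)) :
    ∑ j ∈ Finset.range n, |Real.arctan √((sq f).eval (x (j + 1)) / (sq g).eval (x (j + 1)))
      - Real.arctan √((sq f).eval (x j) / (sq g).eval (x j))| ≤ 4 * Real.pi * M.card := by
  have h1 := sum_le f g M hf hg x hx n
  have h2 : ∑ j ∈ Finset.range n,
      ENNReal.ofReal (2 * |Real.arctan √((sq f).eval (x (j + 1)) / (sq g).eval (x (j + 1)))
      - Real.arctan √((sq f).eval (x j) / (sq g).eval (x j))| / Real.pi) ≤ 8 * (M.card : ℝ≥0∞) := by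
    refine le_trans (Finset.sum_le_sum fun j hj => ?_) h1
    have hj' := Finset.mem_range.1 hj
    exact amp_le f g (x j) (x (j + 1)) (hN j hj'.le) (hN (j + 1) hj')
  rw [← ENNReal.ofReal_sum_of_nonneg (fun j _ => by positivity)] at h2
  have h3 : (8 * (M.card : ℝ≥0∞)) = ENNReal.ofReal (8 * M.card) := by
    rw [ENNReal.ofReal_mul (by norm_num), ENNReal.ofReal_natCast]
    norm_num
  rw [h3, ENNReal.ofReal_le_ofReal_iff (by positivity), ← Finset.sum_div,
    div_le_iff₀ Real.pi_pos, ← Finset.mul_sum] at h2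
  linarith

theorem arctan_gap (δ : ℝ) (h0 : 0 < δ) (h1 : δ ≤ 1) :
    δ / 8 ≤ Real.arctan √(1 + δ) - Real.arctan 1 := by
  have hs : 1 ≤ √(1 + δ) := Real.one_le_sqrt.2 (by linarith)
  have hs2 : √(1 + δ) ^ 2 = 1 + δ := Real.sq_sqrt (by linarith)
  set b := √(1 + δ) with hb
  have h2 : Real.arctan b - Real.arctan 1 = ∫ x in (1 : ℝ)..b, (1 + x ^ 2)⁻¹ := by
    rw [integral_inv_one_add_sq]
  have h3 : ∫ _x in (1 : ℝ)..b, (3 : ℝ)⁻¹ ≤ ∫ x in (1 : ℝ)..b, (1 + x ^ 2)⁻¹ := by
    refine intervalIntegral.integral_mono_on hs (by simp) ?_ fun x hx => ?_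
    · refine Continuous.intervalIntegrable ?_ _ _
      refine Continuous.inv₀ (by fun_prop) fun x => ?_
      positivity
    · refine inv_anti₀ (by positivity) ?_
      nlinarith [hx.1, hx.2]
  rw [intervalIntegral.integral_const, smul_eq_mul] at h3
  rw [h2]
  have h4 : δ * (3 / 8) ≤ b - 1 := by nlinarith
  linarith

/-- robust sign changes -/
theorem robust_le (f : ι → ℝ[X]) (g : κ → ℝ[X]) (M : Finset ℕ) (hf : ∀ i, (f i).support ⊆ M)
    (hg : ∀ j, (g j).support ⊆ M) (δ : ℝ) (h0 : 0 < δ) (h1 : δ ≤ 1) (x : ℕ → ℝ)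
    (hx : StrictMono x) (n : ℕ) (hN : ∀ j ≤ n, 0 < (sq g).eval (x j))
    (he : ∀ j ≤ n, Even j → (1 + δ) * (sq g).eval (x j) ≤ (sq f).eval (x j))
    (ho : ∀ j ≤ n, ¬ Even j → (sq f).eval (x j) ≤ (sq g).eval (x j)) :
    (n : ℝ) ≤ 101 * M.card / δ := by
  have h2 := tv_le f g M hf hg x hx n hN
  have hE : ∀ j ≤ n, Even j →
      Real.arctan √(1 + δ) ≤ Real.arctan √((sq f).eval (x j) / (sq g).eval (x j)) := by
    intro j hj hev
    refine Real.arctan_strictMono.monotone (Real.sqrt_le_sqrt ?_)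
    rw [le_div_iff₀ (hN j hj)]
    exact he j hj hev
  have hO : ∀ j ≤ n, ¬ Even j →
      Real.arctan √((sq f).eval (x j) / (sq g).eval (x j)) ≤ Real.arctan 1 := by
    intro j hj hodd
    refine Real.arctan_strictMono.monotone ?_
    rw [Real.sqrt_le_left (by norm_num : (0 : ℝ) ≤ 1), one_pow, div_le_one (hN j hj)]
    exact ho j hj hodd
  have h3 : ∀ j ∈ Finset.range n, δ / 8 ≤
      |Real.arctan √((sq f).eval (x (j + 1)) / (sq g).eval (x (j + 1)))
        - Real.arctan √((sq f).eval (x j) / (sq g).eval (x j))| := by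
    intro j hj
    have hj' := Finset.mem_range.1 hj
    have hgap := arctan_gap δ h0 h1
    by_cases hev : Even j
    · have e1 := hE j hj'.le hev
      have e2 := hO (j + 1) hj' (by
        rw [Nat.even_add_one, not_not]
        exact hev)
      rw [abs_sub_comm]
      exact le_trans (by linarith) (le_abs_self _)
    · have e1 := hO j hj'.le hev
      have e2 := hE (j + 1) hj' (by
        rw [Nat.even_add_one]
        exact hev)
      exact le_trans (by linarith) (le_abs_self _)
  have h4 := Finset.sum_le_sum h3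
  rw [Finset.sum_const, Finset.card_range, nsmul_eq_mul] at h4
  have h5 : (n : ℝ) * (δ / 8) ≤ 4 * Real.pi * M.card := h4.trans h2
  rw [le_div_iff₀ h0]
  have hpi := Real.pi_lt_d2
  have hM : (0 : ℝ) ≤ M.card := Nat.cast_nonneg _
  nlinarith

end

end Pool.Agent.TH322.SQ
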