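import Pool.Agent.TH322.SQ.TV

/-!
# Two tail estimates for the standard Gaussian law
-/

set_option autoImplicit false

open MeasureTheory ProbabilityTheory Polynomial Filter
open scoped ENNReal NNReal RealInnerProductSpace Topology

namespace Pool.Agent.TH322.SQ

theorem pdf_eq (y : ℝ) : gaussianPDF 0 1 y = ENNReal.ofReal ((√(2 * Real.pi))⁻¹ * Real.exp (-y ^ 2 / 2)) := by
  rw [gaussianPDF, gaussianPDFReal]
  congr 1
  simp

theorem sqrt_two_pi : 5 / 2 ≤ √(2 * Real.pi) ∧ √(2 * Real.pi) ≤ 2.51 := by
  constructor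
  · refine Real.le_sqrt_of_sq_le ?_
    nlinarith [Real.pi_gt_d2]
  · refine Real.sqrt_le_iff.2 ⟨by norm_num, ?_⟩
    nlinarith [Real.pi_lt_d2]

/-- the first tail estimate -/
theorem tail (t : ℝ) (ht : 0 ≤ t) :
    (gaussianReal 0 1) {y | t < |y|} ≤ ENNReal.ofReal (Real.exp (-(t / 10))) := by
  have hm : MeasurableSet {y : ℝ | t < |y|} := measurableSet_lt measurable_const (by fun_prop)
  rcases le_or_gt t 2 with h | h
  · have h1 : ENNReal.ofReal (t / 10) ≤ (gaussianReal 0 1) (Set.Icc (-t) t) := by
      rw [gaussianReal_apply _ (by norm_num)]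
      calc ENNReal.ofReal (t / 10) ≤ ∫⁻ _y in Set.Icc (-t) t, ENNReal.ofReal (1 / 20) := by
            rw [setLIntegral_const, Real.volume_Icc, ← ENNReal.ofReal_mul (by norm_num)]
            exact ENNReal.ofReal_le_ofReal (by linarith)
        _ ≤ _ := by
            refine setLIntegral_mono' measurableSet_Icc fun y hy => ?_
            rw [pdf_eq]
            refine ENNReal.ofReal_le_ofReal ?_
            have hy2 : y ^ 2 ≤ 4 := by
              have h1 := hy.1
              have h2 := hy.2
              nlinarith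
            have h3 : Real.exp (-2) ≤ Real.exp (-y ^ 2 / 2) := Real.exp_le_exp.2 (by linarith)
            have h4 : (10 / 79 : ℝ) ≤ Real.exp (-2) := by
              rw [Real.exp_neg, show (2 : ℝ) = 1 + 1 by norm_num, Real.exp_add]
              have h5 := Real.exp_one_lt_d9
              have h6 := Real.exp_one_gt_d9
              rw [show (10 / 79 : ℝ) = (7.9 : ℝ)⁻¹ by norm_num]
              refine inv_anti₀ (by positivity) ?_
              nlinarith
            have h5 := sqrt_two_pi.2
            have h6 : (2.51 : ℝ)⁻¹ ≤ (√(2 * Real.pi))⁻¹ :=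
              inv_anti₀ (by linarith [sqrt_two_pi.1]) h5
            calc (1 / 20 : ℝ) ≤ (2.51 : ℝ)⁻¹ * (10 / 79) := by norm_num
              _ ≤ _ := mul_le_mul h6 (h4.trans h3) (by norm_num) (by positivity)
    have h2 : {y : ℝ | t < |y|} = (Set.Icc (-t) t)ᶜ := by
      ext y
      rw [Set.mem_compl_iff, Set.mem_Icc, ← abs_le, not_le]
      rfl
    rw [h2, prob_compl_eq_one_sub measurableSet_Icc]
    calc 1 - (gaussianReal 0 1) (Set.Icc (-t) t) ≤ 1 - ENNReal.ofReal (t / 10) :=
          tsub_le_tsub_left h1 _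
      _ = ENNReal.ofReal (1 - t / 10) := by
          rw [ENNReal.ofReal_sub _ (by positivity), ENNReal.ofReal_one]
      _ ≤ _ := ENNReal.ofReal_le_ofReal (by
          have := Real.add_one_le_exp (-(t / 10))
          linarith)
  · have hs : ∀ (s : ℝ), (gaussianReal 0 1).real {y | t ≤ s * y} ≤ Real.exp (-t + s ^ 2 / 2) := by
      intro s
      have h1 := measure_ge_le_exp_mul_mgf (μ := gaussianReal 0 1) (X := fun y : ℝ => s * y) (t := 1)
        t zero_le_one (by
          have := integrable_exp_mul_gaussianReal (μ := 0) (v := 1) s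
          simpa using this)
      have h2 : mgf (fun y : ℝ => s * y) (gaussianReal 0 1) 1 = Real.exp (s ^ 2 / 2) := by
        have h3 := congrFun (mgf_id_gaussianReal (μ := 0) (v := 1)) s
        rw [mgf] at h3 ⊢
        simp only [one_mul, id, zero_mul, zero_add, NNReal.coe_one] at h3 ⊢
        exact h3
      rw [h2, ← Real.exp_add, neg_one_mul] at h1
      exact h1
    have h1 : {y : ℝ | t < |y|} ⊆ {y | t ≤ 1 * y} ∪ {y | t ≤ (-1) * y} := by
      intro y hy
      have hy' : t < |y| := hy
      rcases abs_choice y with h | h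
      · left
        show t ≤ 1 * y
        linarith
      · right
        show t ≤ (-1) * y
        linarith
    have h2 : (gaussianReal 0 1).real {y : ℝ | t < |y|} ≤ 2 * Real.exp (-t + 1 / 2) := by
      calc _ ≤ (gaussianReal 0 1).real ({y | t ≤ 1 * y} ∪ {y | t ≤ (-1) * y}) :=
            measureReal_mono h1
        _ ≤ (gaussianReal 0 1).real {y | t ≤ 1 * y} + (gaussianReal 0 1).real {y | t ≤ (-1) * y} :=
            measureReal_union_le _ _
        _ ≤ _ := by
            have a := hs 1
            have b := hs (-1)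
            norm_num at a b ⊢
            linarith
    have h3 : 2 * Real.exp (-t + 1 / 2) ≤ Real.exp (-(t / 10)) := by
      have h4 : (2 : ℝ) ≤ Real.exp 1 := by
        have := Real.add_one_le_exp (1 : ℝ)
        linarith
      calc 2 * Real.exp (-t + 1 / 2) ≤ Real.exp 1 * Real.exp (-t + 1 / 2) := by gcongr
        _ = Real.exp (1 + (-t + 1 / 2)) := (Real.exp_add _ _).symm
        _ ≤ _ := Real.exp_le_exp.2 (by linarith)
    rw [← ofReal_measureReal]
    exact ENNReal.ofReal_le_ofReal (h2.trans h3)

/-- the second tail estimate -/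
theorem tail2 (a : ℝ) (ha : 0 < a) :
    ∫⁻ y, {y : ℝ | a < |y|}.indicator (fun y => ENNReal.ofReal ((y ^ 2)⁻¹)) y ∂(gaussianReal 0 1)
      ≤ ENNReal.ofReal (Real.exp (-(a / 10)) / a) := by
  have hm : MeasurableSet {y : ℝ | a < |y|} := measurableSet_lt measurable_const (by fun_prop)
  have hpos : ∀ y : ℝ, gaussianPDF 0 1 y ≤ ENNReal.ofReal (Real.exp (-(|y| / 10)) / 2) := by
    intro y
    rw [pdf_eq]
    refine ENNReal.ofReal_le_ofReal ?_
    have h1 : (√(2 * Real.pi))⁻¹ ≤ 2 / 5 := by
      have := inv_anti₀ (by norm_num) sqrt_two_pi.1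
      norm_num at this ⊢
      linarith
    have h2 : -y ^ 2 / 2 ≤ 1 / 200 + -(|y| / 10) := by
      have : y ^ 2 = |y| ^ 2 := (sq_abs y).symm
      nlinarith [sq_nonneg (|y| - 1 / 10)]
    have h3 : Real.exp (1 / 200) ≤ 5 / 4 := by
      have h4 := Real.exp_bound_div_one_sub_of_interval (x := 1 / 200) (by norm_num) (by norm_num)
      norm_num at h4 ⊢
      linarith
    calc (√(2 * Real.pi))⁻¹ * Real.exp (-y ^ 2 / 2)
        ≤ 2 / 5 * Real.exp (1 / 200 + -(|y| / 10)) := by
          gcongr
      _ = 2 / 5 * Real.exp (1 / 200) * Real.exp (-(|y| / 10)) := by rw [Real.exp_add]; ring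
      _ ≤ 2 / 5 * (5 / 4) * Real.exp (-(|y| / 10)) := by gcongr
      _ = _ := by ring
  have hI : ∫⁻ y in Set.Ioi a, ENNReal.ofReal ((y ^ 2)⁻¹) = ENNReal.ofReal a⁻¹ := by
    have h1 : IntegrableOn (fun y : ℝ => (y ^ 2)⁻¹) (Set.Ioi a) := by
      have := integrableOn_Ioi_rpow_of_lt (a := -2) (by norm_num) ha
      refine this.congr_fun (fun y hy => ?_) measurableSet_Ioi
      have hy0 : 0 < y := ha.trans hy
      simp only
      rw [Real.rpow_neg hy0.le]
      norm_num
    rw [← ofReal_integral_eq_lintegral_ofReal h1 (Eventually.of_forall fun y => by positivity)]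
    congr 1
    have h2 := integral_Ioi_rpow_of_lt (a := -2) (by norm_num) ha
    rw [show ∫ y in Set.Ioi a, (y ^ 2)⁻¹ = ∫ y in Set.Ioi a, y ^ (-2 : ℝ) from
      setIntegral_congr_fun measurableSet_Ioi fun y hy => by
        have hy0 : 0 < y := ha.trans hy
        rw [Real.rpow_neg hy0.le]
        norm_num, h2]
    norm_num
    rw [Real.rpow_neg_one]
  have hI2 : ∫⁻ y in Set.Iio (-a), ENNReal.ofReal ((y ^ 2)⁻¹) = ENNReal.ofReal a⁻¹ := by
    rw [← hI]
    have h1 := (Measure.measurePreserving_neg (volume : Measure ℝ)).setLIntegral_comp_preimage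
      (s := Set.Ioi a) measurableSet_Ioi (f := fun y => ENNReal.ofReal ((y ^ 2)⁻¹)) (by fun_prop)
    rw [← h1]
    have h2 : (Neg.neg ⁻¹' Set.Ioi a : Set ℝ) = Set.Iio (-a) := by
      ext y
      simp
    rw [h2]
    refine lintegral_congr fun y => ?_
    rw [neg_sq]
  have hset : {y : ℝ | a < |y|} = Set.Iio (-a) ∪ Set.Ioi a := by
    ext y
    rw [Set.mem_union, Set.mem_Iio, Set.mem_Ioi]
    show a < |y| ↔ _
    rw [lt_abs, lt_neg]
    tauto
  have hmq : Measurable fun y : ℝ => ENNReal.ofReal ((y ^ 2)⁻¹) := by fun_prop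
  have hE : Measurable fun y : ℝ => {y : ℝ | a < |y|}.indicator
      (fun y => ENNReal.ofReal ((y ^ 2)⁻¹)) y := by
    refine Measurable.indicator ?_ hm
    exact ENNReal.measurable_ofReal.comp (by fun_prop)
  rw [gaussianReal_of_var_ne_zero _ (by norm_num), lintegral_withDensity_eq_lintegral_mul _
    (measurable_gaussianPDF 0 1) hE]
  calc ∫⁻ y, (gaussianPDF 0 1 * fun y => {y : ℝ | a < |y|}.indicator
        (fun y => ENNReal.ofReal ((y ^ 2)⁻¹)) y) y
      ≤ ∫⁻ y, {y : ℝ | a < |y|}.indicator
        (fun y => ENNReal.ofReal (Real.exp (-(a / 10)) / 2) * ENNReal.ofReal ((y ^ 2)⁻¹)) y := by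
        refine lintegral_mono fun y => ?_
        simp only [Pi.mul_apply]
        by_cases hy : y ∈ {y : ℝ | a < |y|}
        · rw [Set.indicator_of_mem hy, Set.indicator_of_mem hy]
          refine mul_le_mul_left ((hpos y).trans (ENNReal.ofReal_le_ofReal ?_)) _
          have hy' : a < |y| := hy
          have : Real.exp (-(|y| / 10)) ≤ Real.exp (-(a / 10)) := Real.exp_le_exp.2 (by linarith)
          linarith
        · rw [Set.indicator_of_notMem hy, Set.indicator_of_notMem hy, mul_zero]
    _ = ENNReal.ofReal (Real.exp (-(a / 10)) / 2) * (ENNReal.ofReal a⁻¹ + ENNReal.ofReal a⁻¹) := by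
        rw [lintegral_indicator hm, lintegral_const_mul _ hmq,
          hset, lintegral_union measurableSet_Ioi, hI, hI2]
        rw [Set.disjoint_left]
        intro y h1 h2
        rw [Set.mem_Iio] at h1
        rw [Set.mem_Ioi] at h2
        linarith
    _ = _ := by
        rw [← ENNReal.ofReal_add (by positivity) (by positivity), ← ENNReal.ofReal_mul (by positivity)]
        congr 1
        field_simp
        ring

end Pool.Agent.TH322.SQ
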